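import Pool.Agent.P.MP_0993da_nt.Pair

/-!
The residues `i - a / p_i` modulo a small prime rarely collide.
-/

namespace Pool.Agent.P.MP_0993da_nt

open Finset Real Pool.Agent.Lib.Sieve

theorem pairs_eq {κ : Type*} [DecidableEq κ] (I : Finset ℕ) (f : ℕ → κ) (K : Finset κ)
    (hK : ∀ i ∈ I, f i ∈ K) :
    ((I ×ˢ I).filter (fun x => f x.1 = f x.2)).card =
      ∑ c ∈ K, (I.filter (fun i => f i = c)).card ^ 2 := by
  rw [card_eq_sum_card_fiberwise (f := fun x => f x.1) (t := K)
    (fun x hx => hK _ (mem_product.1 (mem_filter.1 hx).1).1)]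
  refine sum_congr rfl fun c _ => ?_
  rw [sq, ← card_product]
  congr 1
  ext x
  simp only [mem_filter, mem_product]
  constructor
  · rintro ⟨⟨h1, h2⟩, h3⟩; exact ⟨⟨h1.1, h3⟩, h1.2, h2 ▸ h3⟩
  · rintro ⟨⟨h1, h2⟩, h3, h4⟩; exact ⟨⟨⟨h1, h3⟩, h2.trans h4.symm⟩, h2⟩

theorem blocks {κ : Type*} [DecidableEq κ] (I : Finset ℕ) (f : ℕ → κ) (g : ℕ → ℕ) (nb : ℕ)
    (hg : ∀ i ∈ I, g i < nb) :
    ((I ×ˢ I).filter (fun x => f x.1 = f x.2)).card ≤
      nb * ((I ×ˢ I).filter (fun x => (f x.1, g x.1) = (f x.2, g x.2))).card := by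
  rw [pairs_eq I f (I.image f) (fun i hi => mem_image_of_mem f hi),
    pairs_eq I (fun i => (f i, g i)) (I.image f ×ˢ range nb)
      (fun i hi => mem_product.2 ⟨mem_image_of_mem f hi, mem_range.2 (hg i hi)⟩),
    sum_product, mul_sum]
  refine sum_le_sum fun c _ => ?_
  rw [card_eq_sum_card_fiberwise (f := g) (t := range nb)
    (fun i hi => mem_range.2 (hg i (mem_filter.1 hi).1))]
  refine sq_sum_le_card_mul_sum_sq.trans (le_of_eq ?_)
  rw [card_range]
  congr 1
  refine sum_congr rfl fun b _ => ?_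
  simp only [filter_filter, Prod.mk.injEq]

theorem same_block {κ : Type*} [DecidableEq κ] (A B J : ℕ) (hJ : 0 < J) (f : ℕ → κ) :
    ((Ico A B ×ˢ Ico A B).filter
      (fun x => (f x.1, (x.1 - A) / J) = (f x.2, (x.2 - A) / J))).card ≤
      2 * ∑ j ∈ range J, ((Ico A B).filter (fun i => i + j < B ∧ f i = f (i + j))).card := by
  set G := (range J).sigma (fun j => (Ico A B).filter (fun i => i + j < B ∧ f i = f (i + j)))
  have h1 : (Ico A B ×ˢ Ico A B).filter
      (fun x => (f x.1, (x.1 - A) / J) = (f x.2, (x.2 - A) / J)) ⊆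
      G.image (fun y => (y.2, y.2 + y.1)) ∪ G.image (fun y => (y.2 + y.1, y.2)) := by
    rintro ⟨i, i'⟩ hx
    simp only [mem_filter, mem_product, mem_Ico, Prod.mk.injEq] at hx
    obtain ⟨⟨h1, h2⟩, h3, h4⟩ := hx
    have e1 := Nat.div_add_mod (i - A) J
    have e2 := Nat.div_add_mod (i' - A) J
    have e3 := Nat.mod_lt (i - A) hJ
    have e4 := Nat.mod_lt (i' - A) hJ
    rw [h4] at e1
    rcases le_total i i' with h | h
    · refine mem_union_left _ (mem_image.2 ⟨⟨i' - i, i⟩, ?_, by simp [h]⟩)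
      simp only [G, mem_sigma, mem_range, mem_filter, mem_Ico, Nat.add_sub_cancel' h]
      exact ⟨by omega, h1, h2.2, h3⟩
    · refine mem_union_right _ (mem_image.2 ⟨⟨i - i', i'⟩, ?_, by simp [h]⟩)
      simp only [G, mem_sigma, mem_range, mem_filter, mem_Ico, Nat.add_sub_cancel' h]
      exact ⟨by omega, h2, h1.2, h3.symm⟩
  refine (card_le_card h1).trans ((card_union_le _ _).trans ?_)
  rw [← card_sigma, two_mul]
  exact add_le_add card_image_le card_image_le

/-- The primes in increasing order, starting from index zero. -/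
noncomputable def pr (i : ℕ) : ℕ := Nat.nth Nat.Prime i

theorem pr_prime (i : ℕ) : (pr i).Prime := Nat.prime_nth_prime i

theorem pr_mono : StrictMono pr := Nat.nth_strictMono Nat.infinite_setOfPred_prime

theorem far_le {A B X j H : ℕ} (hX : ∀ i ∈ Ico A B, pr i ≤ X) :
    ((Ico A B).filter (fun i => i + j < B ∧ pr i + H < pr (i + j))).card * H ≤ j * X := by
  set F := (Ico A B).filter (fun i => i + j < B ∧ pr i + H < pr (i + j))
  have hF : F ⊆ Ico A (B - j) := by
    intro i hi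
    simp only [F, mem_filter, mem_Ico] at hi ⊢
    omega
  have h1 : ∑ i ∈ Ico A (B - j), pr i + F.card * H ≤ ∑ i ∈ Ico A (B - j), pr (i + j) := by
    have : F.card * H = ∑ i ∈ Ico A (B - j), if i ∈ F then H else 0 := by
      rw [← sum_filter, filter_mem_eq_inter, inter_eq_right.2 hF, sum_const, smul_eq_mul]
    rw [this, ← sum_add_distrib]
    refine sum_le_sum fun i _ => ?_
    split_ifs with h
    · exact (mem_filter.1 h).2.2.le
    · exact pr_mono.monotone (Nat.le_add_right _ _)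
  have h2 : ∑ i ∈ Ico A (B - j), pr (i + j) ≤ ∑ i ∈ Ico A (B - j), pr i + j * X := by
    rw [sum_Ico_add' pr]
    have h3 : Ico (A + j) (B - j + j) ⊆ Ico A (B - j) ∪ (Ico (B - j) B ∩ Ico A B) := by
      intro i hi
      simp only [mem_union, mem_inter, mem_Ico] at hi ⊢
      omega
    refine (sum_le_sum_of_subset h3).trans ?_
    refine (le_add_of_nonneg_right (Nat.zero_le _)).trans (sum_union_inter.le.trans ?_)
    refine Nat.add_le_add_left ?_ _
    refine (sum_le_card_nsmul _ _ X fun i hi => hX i (mem_inter.1 hi).2).trans ?_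
    rw [smul_eq_mul]
    refine Nat.mul_le_mul_right _ ((card_le_card inter_subset_left).trans ?_)
    rw [Nat.card_Ico]; omega
  omega

theorem roots_le {l : ℕ} (hl : l.Prime) {j : ℤ} (hj : ¬ (l : ℤ) ∣ j) (u v : ℤ) :
    ((range l).filter (fun r : ℕ => (l : ℤ) ∣ j * r ^ 2 + u * r + v)).card ≤ 2 := by
  have := Fact.mk hl
  have hj' : (j : ZMod l) ≠ 0 := fun h => hj ((ZMod.intCast_zmod_eq_zero_iff_dvd j l).1 h)
  set R := (range l).filter (fun r : ℕ => (l : ℤ) ∣ j * r ^ 2 + u * r + v)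
  have hR : ∀ r ∈ R, (j : ZMod l) * r ^ 2 + u * r + v = 0 := by
    intro r hr
    have := (ZMod.intCast_zmod_eq_zero_iff_dvd _ l).2 (mem_filter.1 hr).2
    push_cast at this
    exact this
  rcases R.eq_empty_or_nonempty with h | ⟨r0, h0⟩
  · simp [h]
  refine le_trans (card_le_card_of_injOn (fun r : ℕ => (r : ZMod l))
    (t := {(r0 : ZMod l), -(u : ZMod l) / j - r0}) ?_ ?_) card_le_two
  · intro r hr
    have h1 := hR r hr
    have h2 := hR r0 h0
    simp only [coe_insert, coe_singleton, Set.mem_insert_iff, Set.mem_singleton_iff]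
    have h3 : ((r : ZMod l) - r0) * (j * (r + r0) + u) = 0 := by linear_combination h1 - h2
    rcases mul_eq_zero.1 h3 with h4 | h4
    · exact Or.inl (sub_eq_zero.1 h4)
    · right; field_simp; linear_combination h4
  · intro r hr r' hr' h
    have h1 := mem_range.1 (mem_filter.1 hr).1
    have h2 := mem_range.1 (mem_filter.1 hr').1
    have := congrArg ZMod.val h
    simp only at this
    rwa [ZMod.val_cast_of_lt h1, ZMod.val_cast_of_lt h2] at this

theorem near_le (a : ℤ) {P l j h : ℕ} (hl : l.Prime) (hj : ¬ l ∣ j) (hh : h ≠ 0)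
    (hT : 2 ^ 120 ≤ 4 * P / l + 1) :
    (((Ioc P (4 * P)).filter (fun p : ℕ => p.Prime ∧ (p + h).Prime ∧
      (l : ℤ) ∣ j * p ^ 2 + j * h * p + a * h)).card : ℝ) ≤
      8 * C0 * ew h ^ 2 * ((4 * P / l + 1 : ℕ) / log (4 * P / l + 1 : ℕ) ^ 2) := by
  set T := 4 * P / l + 1 with hTd
  have hTP : T ≤ 2 * P + 1 := by
    have : 4 * P / l ≤ 4 * P / 2 := Nat.div_le_div_left hl.two_le (by norm_num)
    omega
  set R := (range l).filter (fun r : ℕ => (l : ℤ) ∣ j * r ^ 2 + j * h * r + a * h)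
  set G := R.sigma (fun r => (range T).filter
    (fun t : ℕ => Big T (l * t + r) ∧ Big T (l * t + (r + h))))
  have h1 : ((Ioc P (4 * P)).filter (fun p : ℕ => p.Prime ∧ (p + h).Prime ∧
      (l : ℤ) ∣ j * p ^ 2 + j * h * p + a * h)).card ≤ G.card := by
    refine card_le_card_of_injOn (fun p => ⟨p % l, p / l⟩) ?_ ?_
    · intro p hp
      simp only [coe_filter, Set.mem_ofPred_eq, mem_Ioc] at hp
      obtain ⟨⟨h1, h2⟩, h3, h4, h5⟩ := hp
      have e : (l : ℤ) * (p / l : ℕ) + (p % l : ℕ) = p := by exact_mod_cast Nat.div_add_mod p l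
      have e' : (l : ℤ) * (p / l : ℕ) + ((p % l : ℕ) + h) = (p + h : ℕ) := by
        rw [← add_assoc, e]; push_cast; rfl
      simp only [G, R, mem_coe, mem_sigma, mem_filter, mem_range]
      refine ⟨⟨Nat.mod_lt _ hl.pos, ?_⟩, Nat.lt_succ_of_le (Nat.div_le_div_right h2), ?_, ?_⟩
      · rw [← e] at h5
        generalize ((p / l : ℕ) : ℤ) = t at h5
        generalize ((p % l : ℕ) : ℤ) = r at h5 ⊢
        have := dvd_sub h5 (dvd_mul_right (l : ℤ) (j * l * t ^ 2 + 2 * j * t * r + j * h * t))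
        rwa [show (j : ℤ) * (l * t + r) ^ 2 + j * h * (l * t + r) + a * h -
          l * (j * l * t ^ 2 + 2 * j * t * r + j * h * t) = j * r ^ 2 + j * h * r + a * h by ring]
          at this
      · rw [e]; exact ⟨by simpa using h3, by omega⟩
      · rw [e']; exact ⟨by rw [Int.toNat_natCast]; exact h4, by omega⟩
    · intro p _ p' _ e
      simp only [Sigma.mk.injEq, heq_eq_eq] at e
      rw [← Nat.div_add_mod p l, ← Nat.div_add_mod p' l, e.1, e.2]
  have hC := C0_pos
  have h2 : (G.card : ℝ) ≤ R.card * (C0 * (2 * ew h) ^ 2 * (T / log T ^ 2)) := by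
    rw [card_sigma, ← nsmul_eq_mul]
    push_cast
    refine sum_le_card_nsmul _ _ _ fun r _ => ?_
    refine (pair_gen hT (mul_ne_zero hl.ne_zero hh) l r l (r + h) fun q _ hq => ?_).trans ?_
    · have h3 : ¬ (q : ℤ) ∣ l := fun h3 => hq ((Int.natCast_dvd_natCast.1 h3).mul_right _)
      refine ⟨h3, h3, fun h4 => hq (Int.natCast_dvd_natCast.1 ?_)⟩
      push_cast
      rwa [show (l : ℤ) * (r + h) - l * r = l * h by ring] at h4
    · have := (ew_pos (l * h)).le
      gcongr
      exact ew_prime_mul hl hh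
  have h3 : (R.card : ℝ) ≤ 2 := by
    exact_mod_cast roots_le hl (fun h => hj (Int.natCast_dvd_natCast.1 h)) _ _
  calc _ ≤ (G.card : ℝ) := by exact_mod_cast h1
    _ ≤ 2 * (C0 * (2 * ew h) ^ 2 * (T / log T ^ 2)) := h2.trans (by gcongr)
    _ = _ := by ring

end Pool.Agent.P.MP_0993da_nt
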