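import Pool.Agent.P.MP_0993da_nt.Per

/-!
The dispersion estimate for bilinear forms over prime moduli.
-/

namespace Pool.Agent.P.MP_0993da_nt

open Finset Real Pool.Agent.Lib.Sieve

/-- A set of primes larger than `P` and not dividing `a`. -/
def Good (a : ℤ) (P : ℕ) (S : Finset ℕ) : Prop := ∀ p ∈ S, p.Prime ∧ P < p ∧ ¬ (p : ℤ) ∣ a

/-- The discrepancy function summed over the moduli. -/
noncomputable def W (a : ℤ) (S : Finset ℕ) (n : ℕ) : ℝ := ∑ p ∈ S, w a p n

variable {a : ℤ} {P : ℕ} {S : Finset ℕ}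

theorem W_interval (hS : Good a P S) (m s t : ℕ) :
    |∑ d ∈ Ico s t, W a S (d * m)| ≤ 3 * S.card := by
  unfold W
  rw [sum_comm]
  refine (abs_sum_le_sum_abs _ _).trans ?_
  refine (sum_le_sum fun p hp => w_interval (hS p hp).1 (hS p hp).2.2 m s t).trans ?_
  simp [mul_comm]

theorem one_le_log {p : ℕ} (hp : 3 ≤ p) : 1 ≤ log p := by
  have h3 : (3 : ℝ) ≤ p := by exact_mod_cast hp
  rw [le_log_iff_exp_le (by linarith)]
  linarith [exp_one_lt_d9]

theorem cnt_dvd (hS : Good a P S) (hP : 2 ≤ P) {x m m' : ℕ} (hm : m ∈ Ioc 0 x)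
    (hm' : m' ∈ Ioc 0 x) :
    ∑ p ∈ S, (if (p : ℤ) ∣ (m : ℤ) - m' then (1 : ℝ) else 0) ≤
      log x + if m = m' then (S.card : ℝ) else 0 := by
  rw [mem_Ioc] at hm hm'
  have hl : 0 ≤ log x := log_natCast_nonneg x
  split_ifs with h
  · subst h; simp [hl]
  · set n := ((m : ℤ) - m').natAbs with hn
    have hn0 : n ≠ 0 := by omega
    have hnx : n ≤ x := by omega
    rw [← sum_filter, add_zero]
    calc ∑ p ∈ S.filter (fun p : ℕ => (p : ℤ) ∣ (m : ℤ) - m'), (1 : ℝ)
        ≤ ∑ p ∈ S.filter (fun p : ℕ => (p : ℤ) ∣ (m : ℤ) - m'), log p :=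
          sum_le_sum fun p hp => one_le_log (by have := (hS p (mem_filter.1 hp).1).2.1; omega)
      _ ≤ ∑ p ∈ n.primeFactors, log p := by
          refine sum_le_sum_of_subset_of_nonneg (fun p hp => ?_) fun p _ _ => log_natCast_nonneg p
          rw [mem_filter] at hp
          exact Nat.mem_primeFactors.2 ⟨(hS p hp.1).1, Int.natCast_dvd.1 hp.2, hn0⟩
      _ ≤ log n := sum_log_primeFactors_le hn0
      _ ≤ log x := log_le_log (by positivity) (by exact_mod_cast hnx)

theorem kernel_le (hS : Good a P S) (hP : 2 ≤ P) {V T : ℕ} (hV : P ≤ V) (m m' : ℕ) :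
    |∑ d ∈ Ioc V T, d * (W a S (d * m) * W a S (d * m'))| ≤
      (T : ℝ) ^ 2 * (18 * S.card ^ 2 / V + 2 / P *
        (∑ p ∈ S, (if (p : ℤ) ∣ (m : ℤ) - m' then (1 : ℝ) else 0) + 4 * S.card / P)) := by
  classical
  have hP0 : (2 : ℝ) ≤ P := by exact_mod_cast hP
  have hV0 : (P : ℝ) ≤ V := by exact_mod_cast hV
  by_cases hT : T ≤ V
  · rw [Ioc_eq_empty (by omega), sum_empty, abs_zero]
    have : 0 ≤ ∑ p ∈ S, (if (p : ℤ) ∣ (m : ℤ) - m' then (1 : ℝ) else 0) :=
      sum_nonneg fun _ _ => by split_ifs <;> norm_num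
    positivity
  have hT0 : (V : ℝ) ≤ T := by exact_mod_cast (not_le.1 hT).le
  have h1 : ∑ d ∈ Ioc V T, d * (W a S (d * m) * W a S (d * m')) =
      ∑ p ∈ S, ∑ p' ∈ S, ∑ d ∈ Ioc V T, (d : ℝ) * (w a p (d * m) * w a p' (d * m')) := by
    unfold W
    simp only [sum_mul_sum]
    simp only [mul_sum]
    rw [sum_comm]
    exact sum_congr rfl fun p _ => sum_comm
  have h2 : ∀ p ∈ S, ∀ p' ∈ S,
      |∑ d ∈ Ioc V T, (d : ℝ) * (w a p (d * m) * w a p' (d * m'))| ≤
        18 * T + if p = p' then (T : ℝ) ^ 2 * (2 / P *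
          ((if (p : ℤ) ∣ (m : ℤ) - m' then (1 : ℝ) else 0) + 4 / P)) else 0 := by
    intro p hp p' hp'
    obtain ⟨hpp, hPp, hpa⟩ := hS p hp
    by_cases h : p = p'
    · subst h
      rw [if_pos rfl]
      have hp1 : (P : ℝ) + 1 ≤ p := by exact_mod_cast hPp
      have h3 := per_nonneg hpp.pos (fun d => |w a p (d * m) * w a p (d * m')|)
        (fun d => by
          rw [w_congr a (mod_mul dvd_rfl d m), w_congr a (mod_mul dvd_rfl d m')])
        (fun _ => abs_nonneg _) V T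
      have h4 := sum_abs_ww hpp hpa m m'
      have h5 : (T : ℝ) / p + 1 ≤ T * (2 / P) := by
        have h6 : (T : ℝ) / p ≤ T / P := by gcongr
        have h7 : 1 ≤ (T : ℝ) / P := by rw [le_div_iff₀ (by linarith)]; linarith
        have : (T : ℝ) * (2 / P) = T / P + T / P := by ring
        linarith
      have h6 : 4 / ((p : ℝ) - 1) ≤ 4 / P := by gcongr; linarith
      set c : ℝ := if (p : ℤ) ∣ (m : ℤ) - m' then (1 : ℝ) else 0
      calc _ ≤ ∑ d ∈ Ioc V T, (T : ℝ) * |w a p (d * m) * w a p (d * m')| := by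
            refine (abs_sum_le_sum_abs _ _).trans (sum_le_sum fun d hd => ?_)
            rw [abs_mul, Nat.abs_cast]
            gcongr
            exact (mem_Ioc.1 hd).2
        _ ≤ T * ((T * (2 / P)) * (c + 4 / P)) := by
            rw [← mul_sum]
            refine mul_le_mul_of_nonneg_left (h3.trans ?_) (by positivity)
            exact mul_le_mul h5 (by linarith) (sum_nonneg fun _ _ => abs_nonneg _) (by positivity)
        _ ≤ _ := by
            have : (0 : ℝ) ≤ T := by positivity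
            nlinarith
    · rw [if_neg h, add_zero]
      obtain ⟨hpp', -, hpa'⟩ := hS p' hp'
      refine (abel_Ioc _ (ww_interval hpp hpa hpp' hpa' h m m') (fun n => (n : ℝ))
        (fun n => by positivity) (fun n _ => by push_cast; linarith) V T).trans ?_
      push_cast; linarith
  rw [h1]
  refine (abs_sum_le_sum_abs _ _).trans ?_
  refine (sum_le_sum fun p hp => (abs_sum_le_sum_abs _ _).trans
    (sum_le_sum fun p' hp' => h2 p hp p' hp')).trans ?_
  have h3 : ∀ p ∈ S, ∑ p' ∈ S, (18 * (T : ℝ) + if p = p' then (T : ℝ) ^ 2 * (2 / P *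
      ((if (p : ℤ) ∣ (m : ℤ) - m' then (1 : ℝ) else 0) + 4 / P)) else 0) =
      S.card * (18 * T) + (T : ℝ) ^ 2 * (2 / P *
      ((if (p : ℤ) ∣ (m : ℤ) - m' then (1 : ℝ) else 0) + 4 / P)) := by
    intro p hp
    rw [sum_add_distrib, sum_ite_eq, if_pos hp, sum_const, nsmul_eq_mul]
  rw [sum_congr rfl h3, sum_add_distrib, sum_const, ← mul_sum, ← mul_sum, sum_add_distrib,
    sum_const, nsmul_eq_mul, nsmul_eq_mul]
  have h4 : (T : ℝ) ≤ T ^ 2 / V := by
    rw [le_div_iff₀ (by linarith)]; nlinarith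
  have h5 : (S.card : ℝ) * (S.card * (18 * T)) ≤ S.card * (S.card * (18 * (T ^ 2 / V))) := by
    gcongr
  refine le_trans (add_le_add h5 le_rfl) (le_of_eq ?_)
  ring

theorem type_two (hS : Good a P S) (hP : 2 ≤ P) {V x : ℕ} (hV : P ≤ V) (α β : ℕ → ℝ)
    {L B1 B2 : ℝ} (hα : ∀ d ∈ Ioc V x, |α d| ≤ L) (hβ1 : ∑ m ∈ Ioc 0 x, |β m| / m ≤ B1)
    (hβ2 : ∑ m ∈ Ioc 0 x, (|β m| / m) ^ 2 ≤ B2) :
    (∑ d ∈ Ioc V x, α d * ∑ m ∈ Ioc 0 (x / d), β m * W a S (d * m)) ^ 2 ≤
      (L ^ 2 * (1 + log x)) * (x ^ 2 * ((18 * S.card ^ 2 / V + 2 / P * (log x + 4 * S.card / P)) *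
        B1 ^ 2 + 2 / P * S.card * B2)) := by
  classical
  have hl : 0 ≤ log x := log_natCast_nonneg x
  set A : ℝ := 18 * S.card ^ 2 / V + 2 / P * (log x + 4 * S.card / P) with hA
  have hA0 : 0 ≤ A := by positivity
  have hd0 : ∀ d ∈ Ioc V x, 0 < d := fun d hd => by have := (mem_Ioc.1 hd).1; omega
  refine (sum_sq_le_sum_mul_sum_of_sq_le_mul (Ioc V x) (f := fun d => α d ^ 2 / d)
    (g := fun d => d * (∑ m ∈ Ioc 0 (x / d), β m * W a S (d * m)) ^ 2)
    (fun d _ => by positivity) (fun d _ => by positivity) (fun d hd => ?_)).trans ?_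
  · have : (d : ℝ) ≠ 0 := by exact_mod_cast (hd0 d hd).ne'
    apply le_of_eq
    field_simp
  refine mul_le_mul ?_ ?_ (sum_nonneg fun d _ => by positivity) (by positivity)
  · calc ∑ d ∈ Ioc V x, α d ^ 2 / d ≤ ∑ d ∈ Ioc V x, L ^ 2 * (1 / (d : ℝ)) := by
          refine sum_le_sum fun d hd => ?_
          rw [mul_one_div]
          exact div_le_div_of_nonneg_right (sq_le_sq' (abs_le.1 (hα d hd)).1 (abs_le.1 (hα d hd)).2)
            (by positivity)
      _ ≤ ∑ d ∈ Ioc 0 x, L ^ 2 * (1 / (d : ℝ)) :=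
          sum_le_sum_of_subset_of_nonneg (Ioc_subset_Ioc_left (Nat.zero_le _))
            fun _ _ _ => by positivity
      _ ≤ _ := by
          rw [← mul_sum]
          exact mul_le_mul_of_nonneg_left (sum_inv_Ioc_le x) (by positivity)
  have h1 : ∑ d ∈ Ioc V x, d * (∑ m ∈ Ioc 0 (x / d), β m * W a S (d * m)) ^ 2 =
      ∑ m ∈ Ioc 0 x, ∑ m' ∈ Ioc 0 x, β m * β m' *
        ∑ d ∈ Ioc V (x / max m m'), d * (W a S (d * m) * W a S (d * m')) := by
    have e1 : ∀ d ∈ Ioc V x, Ioc 0 (x / d) = (Ioc 0 x).filter (fun m => d * m ≤ x) := by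
      intro d hd
      ext m
      simp only [mem_Ioc, mem_filter, Nat.le_div_iff_mul_le (hd0 d hd), mul_comm m d]
      have := hd0 d hd
      constructor
      · rintro ⟨h1, h2⟩; exact ⟨⟨h1, by nlinarith⟩, h2⟩
      · rintro ⟨h1, h2⟩; exact ⟨h1.1, h2⟩
    have e2 : ∀ m ∈ Ioc 0 x, ∀ m' ∈ Ioc 0 x, Ioc V (x / max m m') =
        (Ioc V x).filter (fun d => d * m ≤ x ∧ d * m' ≤ x) := by
      intro m hm m' hm'
      rw [mem_Ioc] at hm hm'
      ext d
      simp only [mem_Ioc, mem_filter, Nat.le_div_iff_mul_le (lt_max_of_lt_left hm.1),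
        mul_max_of_nonneg _ _ (Nat.zero_le d), max_le_iff]
      constructor
      · rintro ⟨h1, h2⟩; exact ⟨⟨h1, by nlinarith [h2.1, hm.1]⟩, h2⟩
      · rintro ⟨h1, h2⟩; exact ⟨h1.1, h2⟩
    rw [sum_congr rfl fun d hd => by rw [e1 d hd, sum_filter, sq, sum_mul_sum, mul_sum],
      sum_comm]
    refine sum_congr rfl fun m hm => ?_
    simp only [mul_sum]
    rw [sum_comm]
    refine sum_congr rfl fun m' hm' => ?_
    rw [e2 m hm m' hm', sum_filter]
    refine sum_congr rfl fun d _ => ?_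
    by_cases h1 : d * m ≤ x <;> by_cases h2 : d * m' ≤ x <;> simp [h1, h2]
    ring
  have h2 : ∀ m ∈ Ioc 0 x, ∀ m' ∈ Ioc 0 x, β m * β m' *
      ∑ d ∈ Ioc V (x / max m m'), d * (W a S (d * m) * W a S (d * m')) ≤
      x ^ 2 * (A * (|β m| / m * (|β m'| / m')) +
        if m = m' then 2 / P * S.card * (|β m| / m) ^ 2 else 0) := by
    intro m hm m' hm'
    have h3 := kernel_le hS hP (T := x / max m m') hV m m'
    have h4 := cnt_dvd hS hP hm hm'
    rw [mem_Ioc] at hm hm'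
    have hm0 : (0 : ℝ) < m := by exact_mod_cast hm.1
    have hm0' : (0 : ℝ) < m' := by exact_mod_cast hm'.1
    have h5 : ((x / max m m' : ℕ) : ℝ) ^ 2 ≤ x ^ 2 / (m * m') := by
      have h6 : ((x / max m m' : ℕ) : ℝ) ≤ x / m :=
        le_trans (by exact_mod_cast Nat.div_le_div_left (le_max_left _ _) hm.1) Nat.cast_div_le
      have h7 : ((x / max m m' : ℕ) : ℝ) ≤ x / m' :=
        le_trans (by exact_mod_cast Nat.div_le_div_left (le_max_right _ _) hm'.1) Nat.cast_div_le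
      calc _ = ((x / max m m' : ℕ) : ℝ) * ((x / max m m' : ℕ) : ℝ) := sq _
        _ ≤ x / m * (x / m') := by gcongr
        _ = _ := by field_simp
    refine (le_abs_self _).trans ?_
    rw [abs_mul, abs_mul]
    have h6 : 0 ≤ ∑ p ∈ S, (if (p : ℤ) ∣ (m : ℤ) - m' then (1 : ℝ) else 0) :=
      sum_nonneg fun _ _ => by split_ifs <;> norm_num
    calc _ ≤ |β m| * |β m'| * (x ^ 2 / (m * m') * (18 * S.card ^ 2 / V + 2 / P *
          ((log x + if m = m' then (S.card : ℝ) else 0) + 4 * S.card / P))) := by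
          refine mul_le_mul_of_nonneg_left (h3.trans ?_) (by positivity)
          gcongr
      _ = _ := by
          rw [hA]
          split_ifs with h
          · subst h; field_simp; ring
          · field_simp; ring
  rw [h1]
  refine (sum_le_sum fun m hm => sum_le_sum fun m' hm' => h2 m hm m' hm').trans ?_
  simp only [← mul_sum]
  refine mul_le_mul_of_nonneg_left ?_ (by positivity)
  have h3 : ∀ m ∈ Ioc 0 x, ∑ m' ∈ Ioc 0 x, (A * (|β m| / m * (|β m'| / m')) +
      if m = m' then 2 / P * S.card * (|β m| / m) ^ 2 else 0) =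
      A * (∑ m' ∈ Ioc 0 x, |β m'| / m') * (|β m| / m) + 2 / P * S.card * (|β m| / m) ^ 2 := by
    intro m hm
    rw [sum_add_distrib, sum_ite_eq, if_pos hm, ← mul_sum, ← mul_sum]; ring
  rw [sum_congr rfl h3, sum_add_distrib, ← mul_sum, ← mul_sum]
  have h4 : 0 ≤ ∑ m ∈ Ioc 0 x, |β m| / m := sum_nonneg fun _ _ => by positivity
  refine add_le_add ?_ (mul_le_mul_of_nonneg_left hβ2 (by positivity))
  rw [mul_assoc, ← sq]
  gcongr

end Pool.Agent.P.MP_0993da_nt
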