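import Pool.Agent.P.MP_0993da_nt.Mom

/-!
Choice of the parameters and the positive proportion theorem.
-/

namespace Pool.Agent.P.MP_0993da_nt

open Finset Real Filter Pool.Agent.Lib.Sieve

theorem exists_par (a : ℤ) : ∀ᶠ N : ℕ in atTop, ∃ P A B L, Par a N P A B L ∧ N ≤ 64 * P ^ 6 := by
  have h1 : ∀ᶠ P : ℕ in atTop, 10 ^ 21 * (14 * log P) ^ 14 ≤ P := by
    have h2 := (isLittleO_pow_log_id_atTop (n := 14)).bound
      (by positivity : (0 : ℝ) < 1 / (10 ^ 21 * 14 ^ 14))
    filter_upwards [tendsto_natCast_atTop_atTop.eventually h2] with P hP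
    rw [id, Real.norm_natCast, one_div, inv_mul_eq_div, le_div_iff₀ (by positivity)] at hP
    have h3 := mul_le_mul_of_nonneg_right (le_abs_self (log P ^ 14))
      (by positivity : (0 : ℝ) ≤ 10 ^ 21 * 14 ^ 14)
    calc _ = log P ^ 14 * (10 ^ 21 * 14 ^ 14) := by ring
      _ ≤ _ := h3.trans hP
  have h2 : Tendsto (fun N : ℕ => Nat.nthRoot 6 N) atTop atTop :=
    tendsto_atTop.2 fun b => (eventually_ge_atTop (b ^ 6)).mono fun N hN =>
      (Nat.le_nthRoot_iff (by norm_num)).2 hN
  filter_upwards [h2.eventually (h1.and ((eventually_ge_atTop (2 ^ 240)).and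
    (eventually_ge_atTop a.natAbs)))] with N hN
  obtain ⟨P, ⟨e1, e2, e3⟩, e4, e5⟩ : ∃ P : ℕ, (10 ^ 21 * (14 * log P) ^ 14 ≤ P ∧ 2 ^ 240 ≤ P ∧
      a.natAbs ≤ P) ∧ P ^ 6 ≤ N ∧ N < (P + 1) ^ 6 :=
    ⟨_, hN, Nat.pow_nthRoot_le_iff.2 (Or.inl (by norm_num)),
      Nat.lt_pow_nthRoot_add_one (by norm_num) N⟩
  clear hN h1 h2
  have hP : 1000 ≤ P := le_trans (by norm_num) e2
  have hP' : (1000 : ℝ) ≤ P := by exact_mod_cast hP
  have e6 : N ≤ 64 * P ^ 6 := by
    calc N ≤ (2 * P) ^ 6 := e5.le.trans (Nat.pow_le_pow_left (by omega) _)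
      _ = _ := by ring
  have e7 : P ≤ N := (Nat.le_self_pow (by norm_num) P).trans e4
  have hN' : (P : ℝ) ≤ N := by exact_mod_cast e7
  set L := 1 + log ((N : ℝ) * P) with hL
  have hl : 1 ≤ log P := one_le_log (by omega)
  have hNP : (P : ℝ) * 1000 ≤ N * P := by nlinarith
  have hL1 : log (4 * P + 1) ≤ L := by
    have := log_le_log (by positivity) (by linarith : (4 * P + 1 : ℝ) ≤ N * P)
    linarith
  have hL0 : 0 ≤ log ((N : ℝ) * P) := log_nonneg (by linarith)
  have hL2 : L ≤ 14 * log P := by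
    have e8 : N * P ≤ P ^ 8 := by
      calc N * P ≤ 64 * P ^ 6 * P := Nat.mul_le_mul_right _ e6
        _ ≤ P * P ^ 6 * P := by gcongr; omega
        _ = _ := by ring
    have := log_le_log (by linarith) (by exact_mod_cast e8 : (N : ℝ) * P ≤ (P : ℝ) ^ 8)
    rw [log_pow] at this
    push_cast at this
    linarith
  have hL3 : 10 ^ 21 * L ^ 14 ≤ P := le_trans (by gcongr) e1
  refine ⟨P, Nat.count Nat.Prime (P + 1), Nat.count Nat.Prime (4 * P + 1), L,
    ⟨e2, e3, e4, hL3, hL2, le_rfl, fun i hi => ?_, ?_⟩, e6⟩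
  · rw [mem_Ico] at hi
    exact ⟨(Nat.count_le_iff_le_nth Nat.infinite_setOfPred_prime).1 hi.1,
      Nat.lt_succ_iff.1 (Nat.nth_lt_of_lt_count hi.2)⟩
  set F := (Ioc P (4 * P)).filter Nat.Prime with hF
  have f1 : F.card ≤ Nat.count Nat.Prime (4 * P + 1) - Nat.count Nat.Prime (P + 1) := by
    rw [← Nat.card_Ico]
    refine le_trans (card_le_card fun p hp => ?_) (card_image_le (f := pr))
    simp only [hF, mem_filter, mem_Ioc] at hp
    refine mem_image.2 ⟨Nat.count Nat.Prime p, mem_Ico.2 ⟨Nat.count_monotone _ hp.1.1, ?_⟩,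
      Nat.nth_count hp.2⟩
    rw [Nat.lt_nth_iff_count_lt Nat.infinite_setOfPred_prime, Nat.nth_count hp.2]
    omega
  have f2 : Chebyshev.theta (4 * P : ℕ) ≤ Chebyshev.theta P + F.card * L := by
    rw [Chebyshev.theta, Chebyshev.theta, Nat.floor_natCast, Nat.floor_natCast, sum_filter,
      sum_filter, ← sum_Ioc_consecutive _ (Nat.zero_le P) (by omega : P ≤ 4 * P),
      ← sum_filter Nat.Prime (s := Ioc P (4 * P)), ← nsmul_eq_mul]
    refine add_le_add le_rfl (sum_le_card_nsmul _ _ _ fun p hp => le_trans ?_ hL1)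
    simp only [mem_filter, mem_Ioc] at hp
    have : (p : ℝ) ≤ (4 * P : ℕ) := by exact_mod_cast hp.1.2
    exact log_le_log (by exact_mod_cast hp.2.pos) (by push_cast at this; linarith)
  have f3 := Chebyshev.theta_ge (4 * P)
  have f4 := Chebyshev.theta_le_log4_mul_x (x := P) (by positivity)
  have f5 : log 4 = 2 * log 2 := by
    rw [show (4 : ℝ) = 2 ^ 2 by norm_num, log_pow]; norm_num
  have f6 : L ≤ L ^ 14 := le_self_pow₀ (by linarith) (by norm_num)
  have f7 : L ^ 2 ≤ L ^ 14 := pow_le_pow_right₀ (by linarith) (by norm_num)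
  have f8 : 2 * √(4 * P : ℕ) * log (4 * P : ℕ) ≤ P / 10 := by
    have g1 : log (4 * P : ℕ) ≤ L :=
      le_trans (log_le_log (by positivity) (by push_cast; linarith)) hL1
    refine le_trans (mul_le_mul_of_nonneg_left g1 (by positivity)) ?_
    refine (abs_le_of_sq_le_sq' ?_ (by positivity)).2
    rw [mul_pow, mul_pow, sq_sqrt (by positivity)]
    push_cast
    calc _ = P * (16 * L ^ 2) := by ring
      _ ≤ P * (P / 100) := by gcongr; linarith
      _ = _ := by ring
  have f9 : (P : ℝ) * 0.69 ≤ P * log 2 := by gcongr; linarith [log_two_gt_d9]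
  have f10 : (F.card : ℝ) * L ≤
      (Nat.count Nat.Prime (4 * P + 1) - Nat.count Nat.Prime (P + 1) : ℕ) * L := by
    gcongr
  rw [f5] at f4
  push_cast at f3 f8 f2
  linarith

variable {a : ℤ} {N P A B : ℕ} {L : ℝ}

theorem many_large (ha : a ≠ 0) (h : Par a N P A B L) (hN : N ≤ 64 * P ^ 6) :
    1 / (40000 * C4) * N ≤ ((range (N + 1)).filter (fun n => N ≤ rr a N A B n ^ 7)).card := by
  classical
  have hP := h.P1
  have hL := h.L1
  have hN1 := h.N1
  have hC := C4_pos
  have h1 := first ha h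
  have h2 := second h
  have hm := h.many
  have hML := h.ML
  generalize ((B - A : ℕ) : ℝ) = M at *
  have hM : 0 < M := lt_of_lt_of_le (by positivity) hML
  set R := (range (N + 1)).filter (fun n => N ≤ rr a N A B n ^ 7) with hR
  have h3 : ∑ n ∈ (range (N + 1)).filter (fun n => ¬ N ≤ rr a N A B n ^ 7), (rr a N A B n : ℝ) ≤
      M * N / (200 * L) := by
    refine (sum_le_card_nsmul _ _ (M / (400 * L)) fun n hn => ?_).trans ?_
    · have e1 : (rr a N A B n : ℝ) ^ 7 ≤ 64 * P ^ 6 := by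
        exact_mod_cast (not_le.1 (mem_filter.1 hn).2).le.trans hN
      have e2 : P / (400 * L ^ 2) ≤ M / (400 * L) := by
        calc _ ≤ M * L / (400 * L ^ 2) := by gcongr
          _ = _ := by field_simp
      refine le_trans (le_of_pow_le_pow_left₀ (n := 7) (by norm_num) (by positivity)
        (e1.trans ?_)) e2
      rw [div_pow, le_div_iff₀ (by positivity)]
      calc _ = 64 * 400 ^ 7 * L ^ 14 * P ^ 6 := by ring
        _ ≤ 10 ^ 21 * L ^ 14 * P ^ 6 := by gcongr; norm_num
        _ ≤ P * P ^ 6 := by gcongr; exact h.LP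
        _ = _ := by ring
    · have e1 : ((((range (N + 1)).filter (fun n => ¬ N ≤ rr a N A B n ^ 7)).card : ℕ) : ℝ) ≤
          (N + 1 : ℕ) := by exact_mod_cast (card_filter_le _ _).trans (card_range _).le
      rw [nsmul_eq_mul]
      push_cast at e1
      calc _ ≤ (2 * N) * (M / (400 * L)) := by gcongr; linarith
        _ = _ := by field_simp; ring
  rw [← sum_filter_add_sum_filter_not _ (fun n => N ≤ rr a N A B n ^ 7)] at h1
  have h4 : M * N / (200 * L) ≤ ∑ n ∈ R, (rr a N A B n : ℝ) := by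
    have : M * N / (100 * L) = M * N / (200 * L) + M * N / (200 * L) := by field_simp; ring
    linarith
  have h5 : (M * N / (200 * L)) ^ 2 ≤ R.card * (C4 * (M ^ 2 * N / L ^ 2)) := by
    refine (pow_le_pow_left₀ (by positivity) h4 2).trans (sq_sum_le_card_mul_sum_sq.trans ?_)
    exact mul_le_mul_of_nonneg_left ((sum_le_sum_of_subset_of_nonneg (filter_subset _ _)
      fun _ _ _ => by positivity).trans h2) (by positivity)
  have hN0 : (0 : ℝ) < N := by linarith
  refine le_of_mul_le_mul_right (le_trans (le_of_eq ?_) h5) (by positivity)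
  field_simp
  ring

theorem rr_le (h : Par a N P A B L) (n : ℕ) : rr a N A B n ≤ ((Ico 1 n).filter
    (fun k : ℕ => ((k : ℤ) * Nat.nth Nat.Prime (n - k - 1) + a).toNat.Prime)).card := by
  classical
  have hN : P ≤ N := by exact_mod_cast h.N1
  have ha := h.aP
  have key : ∀ i, Rep a N i n → i + 1 < n := fun i hi => by
    by_contra c
    have h1 := hi.2
    have h2 : (pr i : ℤ) * n ≤ pr i * (i + 1) := mul_le_mul_of_nonneg_left (by omega) (by positivity)
    unfold Lf at h1
    omega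
  unfold rr
  refine card_le_card_of_injOn (fun i => n - i - 1) (fun i hi => ?_) fun i hi i' hi' e => ?_
  · have h1 := (mem_filter.1 hi).2
    have h2 := key i h1
    refine mem_filter.2 ⟨mem_Ico.2 (by simp only; omega), ?_⟩
    have e1 : n - (n - i - 1) - 1 = i := by omega
    have e2 : ((n - i - 1 : ℕ) : ℤ) = n - i - 1 := by omega
    have e3 : ((n : ℤ) - i - 1) * pr i + a = Lf a i n := by unfold Lf; ring
    simp only [e1, e2]
    exact e3 ▸ h1.1
  · have h1 := key i (mem_filter.1 hi).2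
    have h2 := key i' (mem_filter.1 hi').2
    simp only at e
    omega

theorem main (a : ℤ) (ha : a ≠ 0) : ∃ c : ℝ, 0 < c ∧ ∀ᶠ N : ℕ in atTop,
    c * N ≤ ((Icc 1 N).filter (fun n : ℕ => N ≤ ((Ico 1 n).filter
      (fun k : ℕ => ((k : ℤ) * Nat.nth Nat.Prime (n - k - 1) + a).toNat.Prime)).card ^ 7)).card := by
  refine ⟨1 / (40000 * C4), by have := C4_pos; positivity, ?_⟩
  filter_upwards [exists_par a, eventually_ge_atTop 1] with N ⟨P, A, B, L, h, hN⟩ h1
  refine (many_large ha h hN).trans (Nat.cast_le.2 (card_le_card fun n hn => ?_))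
  rw [mem_filter, mem_range] at hn
  have h2 := hn.2.trans (Nat.pow_le_pow_left (rr_le h n) 7)
  refine mem_filter.2 ⟨mem_Icc.2 ⟨?_, by omega⟩, h2⟩
  rcases Nat.eq_zero_or_pos n with rfl | h3
  · simp at h2; omega
  · exact h3

end Pool.Agent.P.MP_0993da_nt
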