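import Pool.Agent.P.MP_0993da_nt.Sec

/-!
First and second moment of the representation function.
-/

namespace Pool.Agent.P.MP_0993da_nt

open Finset Real Pool.Agent.Lib.Sieve
open ArithmeticFunction hiding log

set_option maxHeartbeats 400000

/-- The linear form in `n` attached to the index `i`. -/
noncomputable def Lf (a : ℤ) (i n : ℕ) : ℤ := (pr i : ℤ) * n + (a - pr i * (i + 1))

/-- The form with index `i` takes a large prime value at `n`. -/
def Rep (a : ℤ) (N i n : ℕ) : Prop := (Lf a i n).toNat.Prime ∧ (N : ℤ) < Lf a i n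

open Classical in
/-- The number of representations. -/
noncomputable def rr (a : ℤ) (N A B n : ℕ) : ℕ := ((Ico A B).filter (fun i => Rep a N i n)).card

variable {a : ℤ} {N P A B : ℕ} {L : ℝ}

/-- The constant in the second moment. -/
noncomputable def C4 : ℝ := 2 + 288 * C0 * C3

theorem C4_pos : 0 < C4 := by have := C0_pos; have := C3_pos; unfold C4; positivity

theorem second (h : Par a N P A B L) :
    ∑ n ∈ range (N + 1), (rr a N A B n : ℝ) ^ 2 ≤ C4 * (((B - A : ℕ) : ℝ) ^ 2 * N / L ^ 2) := by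
  classical
  have hP := h.P1
  have hL := h.L1
  have hN := h.N1
  have hC0 := C0_pos
  set M : ℝ := ((B - A : ℕ) : ℝ) with hM
  have h1 : ∑ n ∈ range (N + 1), (rr a N A B n : ℝ) ^ 2 = ∑ x ∈ Ico A B ×ˢ Ico A B,
      (((range (N + 1)).filter (fun n => Rep a N x.1 n ∧ Rep a N x.2 n)).card : ℝ) := by
    simp only [rr, card_filter]
    push_cast
    rw [sum_comm]
    refine sum_congr rfl fun n _ => ?_
    rw [sq, sum_mul_sum, sum_product]
    refine sum_congr rfl fun i _ => sum_congr rfl fun i' _ => ?_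
    by_cases h1 : Rep a N i n <;> by_cases h2 : Rep a N i' n <;> simp [h1, h2]
  have hT : ((N + 1 : ℕ) : ℝ) / log (N + 1 : ℕ) ^ 2 ≤ 18 * (N / L ^ 2) := by
    have h2 : log ((P : ℝ) ^ 6) ≤ log (N + 1 : ℕ) :=
      log_le_log (by positivity) (by push_cast; linarith [h.NP])
    rw [log_pow] at h2
    have h3 : 0 ≤ log P := log_natCast_nonneg P
    have h4 : L / 3 ≤ log (N + 1 : ℕ) := by push_cast at h2 ⊢; linarith [h.Lup]
    have h5 : ((N + 1 : ℕ) : ℝ) ≤ 2 * N := by push_cast; linarith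
    calc _ ≤ (2 * N) / (L / 3) ^ 2 := by gcongr
      _ = _ := by field_simp; ring
  have hT2 : 2 ^ 120 ≤ N + 1 := by
    have h2 : P ≤ N := by exact_mod_cast hN
    have := h.big
    omega
  have h2 : ∀ x ∈ (Ico A B ×ˢ Ico A B).filter (fun x => x.1 ≠ x.2),
      (((range (N + 1)).filter (fun n => Rep a N x.1 n ∧ Rep a N x.2 n)).card : ℝ) ≤
        288 * C0 * (N / L ^ 2) * ew (Del a x.1 x.2).natAbs ^ 2 := by
    rintro ⟨i, i'⟩ hx
    simp only [mem_filter, mem_product] at hx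
    have hD := (Del_ne h hx.1.1 hx.1.2 hx.2).1
    have hD' := mul_ne_zero (pr_prime i').ne_zero hD
    have h3 := pair_gen hT2 (mul_ne_zero (pr_prime i).ne_zero hD') (pr i) (a - pr i * (i + 1))
      (pr i') (a - pr i' * (i' + 1)) (fun l _ hl => by
        refine ⟨fun h => hl ((Int.natCast_dvd_natCast.1 h).mul_right _),
          fun h => hl (((Int.natCast_dvd_natCast.1 h).mul_right _).mul_left _),
          fun h => hl (Dvd.dvd.mul_left (Dvd.dvd.mul_left (Int.natCast_dvd.1 ?_) _) _)⟩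
        refine (dvd_neg.2 h).trans (dvd_of_eq ?_)
        unfold Del; ring)
    have h4 : ew (pr i * (pr i' * (Del a i i').natAbs)) ≤ 4 * ew (Del a i i').natAbs := by
      linarith [ew_prime_mul (pr_prime i) hD', ew_prime_mul (pr_prime i') hD]
    have h5 := (ew_pos (pr i * (pr i' * (Del a i i').natAbs))).le
    refine le_trans (Nat.cast_le.2 (card_le_card fun n hn => ?_)) (h3.trans ?_)
    · rw [mem_filter] at hn ⊢
      obtain ⟨h6, ⟨h7, h8⟩, h9, h10⟩ := hn
      simp only [Lf] at h7 h8 h9 h10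
      exact ⟨h6, ⟨h7, by push_cast; omega⟩, h9, by push_cast; omega⟩
    · calc _ ≤ C0 * (4 * ew (Del a i i').natAbs) ^ 2 * (18 * (N / L ^ 2)) := by gcongr
        _ = _ := by ring
  have h3 : ∑ x ∈ (Ico A B ×ˢ Ico A B).filter (fun x => ¬ x.1 ≠ x.2),
      (((range (N + 1)).filter (fun n => Rep a N x.1 n ∧ Rep a N x.2 n)).card : ℝ) ≤
      M * (2 * N) := by
    refine (sum_le_card_nsmul _ _ (2 * N : ℝ) fun x _ => ?_).trans ?_
    · have : (((range (N + 1)).filter (fun n => Rep a N x.1 n ∧ Rep a N x.2 n)).card : ℝ) ≤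
          (N + 1 : ℕ) := by exact_mod_cast (card_filter_le _ _).trans (card_range _).le
      push_cast at this; linarith
    · rw [nsmul_eq_mul, hM, ← Nat.card_Ico]
      refine mul_le_mul_of_nonneg_right (Nat.cast_le.2 ?_) (by positivity)
      refine card_le_card_of_injOn (fun x => x.1)
        (fun x hx => (mem_product.1 (mem_filter.1 hx).1).1) fun x hx y hy e => ?_
      have e1 := not_not.1 (mem_filter.1 hx).2
      have e2 := not_not.1 (mem_filter.1 hy).2
      exact Prod.ext e (e1.symm.trans (e.trans e2))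
  have h4 : M * (2 * N) ≤ 2 * (M ^ 2 * N / L ^ 2) := by
    have h5 : L ^ 2 ≤ M := by
      have h1 : L ^ 2 ≤ L ^ 13 := pow_le_pow_right₀ hL (by norm_num)
      have h3 : 0 ≤ L ^ 13 := by positivity
      linarith [h.ML]
    have h6 : 0 ≤ M * N := by positivity
    rw [← mul_div_assoc, le_div_iff₀ (by positivity)]
    calc _ = 2 * (M * N * L ^ 2) := by ring
      _ ≤ 2 * (M * N * M) := by gcongr
      _ = _ := by ring
  have h5 := sum_le_sum h2
  rw [← mul_sum] at h5
  have h6 := mul_le_mul_of_nonneg_left (sum_ew_Del h)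
    (by positivity : 0 ≤ 288 * C0 * (N / L ^ 2))
  rw [h1, ← sum_filter_add_sum_filter_not _ (fun x : ℕ × ℕ => x.1 ≠ x.2)]
  have e : C4 * (M ^ 2 * N / L ^ 2) =
      288 * C0 * (N / L ^ 2) * (C3 * M ^ 2) + 2 * (M ^ 2 * N / L ^ 2) := by unfold C4; ring
  linarith

theorem one_modulus {p x N : ℕ} (hp : p.Prime) (ha : ¬ (p : ℤ) ∣ a) {L : ℝ} (hx : 1 ≤ x)
    (hL : 1 + log x ≤ L) :
    (x * log 2 - log (x + 1) - x / p * L) / p + ∑ n ∈ Ioc 0 x, Λ n * w a p n ≤
      L * (N / p + 1) + 2 * √x * L +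
        L * ((Ioc N x).filter (fun q : ℕ => q.Prime ∧ (p : ℤ) ∣ q - a)).card := by
  classical
  have hl : 0 ≤ log x := log_natCast_nonneg x
  have hL0 : 0 ≤ L := by linarith
  have hp2 : (2 : ℝ) ≤ p := by exact_mod_cast hp.two_le
  have hΛ : ∀ n ∈ Ioc 0 x, Λ n ≤ L := fun n hn => (le_abs_self _).trans ((abs_vm_le hn).trans hL)
  have h1 : x * log 2 - log (x + 1) ≤ ∑ n ∈ Ioc 0 x, Λ n := by
    have := Chebyshev.psi_ge x
    rwa [Chebyshev.psi, Nat.floor_natCast] at this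
  have h2 : ∑ n ∈ Ioc 0 x, (if p ∣ n then L else 0) ≤ x / p * L := by
    rw [← sum_filter, sum_const, nsmul_eq_mul]
    exact mul_le_mul_of_nonneg_right (card_filter_dvd_le x p) hL0
  have h3 : ∑ n ∈ Ioc 0 x, (if ¬ n.Prime then Λ n else 0) ≤ 2 * √x * L := by
    have h4 := Chebyshev.psi_sub_theta_le (x := x) (by exact_mod_cast hx)
    rw [Chebyshev.psi_sub_theta_eq_sum_not_prime, Nat.floor_natCast, sum_filter] at h4
    exact h4.trans (mul_le_mul_of_nonneg_left (by linarith) (by positivity))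
  have h4 : ∑ n ∈ Ioc 0 x, (if n ≤ N then ind a p n else 0) ≤ N / p + 1 := by
    have h5 := per_nonneg hp.pos (ind a p) (fun n => ind_congr a (Nat.mod_modEq n p).symm)
      (ind_nonneg a p) 0 N
    have h6 := sum_ind_le hp ha 1
    simp only [mul_one] at h6
    rw [← sum_filter]
    refine (sum_le_sum_of_subset_of_nonneg (fun n hn => ?_) fun n _ _ => ind_nonneg a p n).trans
      (h5.trans (mul_le_of_le_one_right (by positivity) h6))
    simp only [mem_filter, mem_Ioc] at hn ⊢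
    exact ⟨hn.1.1, hn.2⟩
  have h5 : (((Ioc N x).filter (fun q : ℕ => q.Prime ∧ (p : ℤ) ∣ q - a)).card : ℝ) =
      ∑ n ∈ Ioc 0 x, if N < n ∧ n.Prime ∧ (p : ℤ) ∣ n - a then 1 else 0 := by
    rw [← sum_filter, sum_const, nsmul_eq_mul, mul_one]
    congr 2
    ext n
    simp only [mem_filter, mem_Ioc]
    constructor
    · rintro ⟨h1, h2⟩; exact ⟨⟨by omega, h1.2⟩, h1.1, h2⟩
    · rintro ⟨h1, h2, h3⟩; exact ⟨⟨h2, h1.2⟩, h3⟩
  have h6 : ∀ n ∈ Ioc 0 x, (Λ n - if p ∣ n then L else 0) / p + Λ n * w a p n ≤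
      L * (if n ≤ N then ind a p n else 0) + (if ¬ n.Prime then Λ n else 0) +
        L * if N < n ∧ n.Prime ∧ (p : ℤ) ∣ n - a then 1 else 0 := by
    intro n hn
    have e1 := hΛ n hn
    have e2 : 0 ≤ Λ n := vonMangoldt_nonneg
    have e3 : (Λ n - if p ∣ n then L else 0) / p + Λ n * w a p n ≤ Λ n * ind a p n := by
      unfold w
      split_ifs
      · have : (Λ n - L) / p ≤ 0 := div_nonpos_of_nonpos_of_nonneg (by linarith) (by linarith)
        linarith
      · have : Λ n / p ≤ Λ n / (p - 1) := by gcongr <;> linarith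
        rw [sub_zero, mul_sub, mul_one_div]; linarith
    refine e3.trans ?_
    unfold ind
    by_cases c1 : (p : ℤ) ∣ n - a <;> by_cases c2 : n ≤ N <;> by_cases c3 : n.Prime <;>
      simp [c1, c2, c3, not_le.1, e1, e2, hL0, not_lt.2]
  have h7 := sum_le_sum h6
  rw [sum_add_distrib, sum_add_distrib, sum_add_distrib, ← sum_div, sum_sub_distrib, ← mul_sum,
    ← mul_sum, ← h5] at h7
  have h8 : (x * log 2 - log (x + 1) - x / p * L) / p ≤
      (∑ n ∈ Ioc 0 x, Λ n - ∑ n ∈ Ioc 0 x, if p ∣ n then L else 0) / p := by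
    gcongr
  linarith [mul_le_mul_of_nonneg_left h4 hL0]

theorem Par.xlo (h : Par a N P A B L) : (P : ℝ) * N / 3 ≤ (P * (N / 2) : ℕ) := by
  have hN : 1000 ≤ N := by exact_mod_cast h.P1.trans h.N1
  have h1 : N ≤ 3 * (N / 2) := by omega
  have h2 : (N : ℝ) ≤ 3 * (N / 2 : ℕ) := by exact_mod_cast h1
  have := h.P1
  push_cast; nlinarith

theorem Par.xup (h : Par a N P A B L) : ((P * (N / 2) : ℕ) : ℝ) ≤ P * N / 2 := by
  have h2 : ((N / 2 : ℕ) : ℝ) ≤ N / 2 := by exact_mod_cast Nat.cast_div_le (α := ℝ)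
  have := h.P1
  push_cast; nlinarith

theorem Par.xlog (h : Par a N P A B L) :
    1 ≤ P * (N / 2) ∧ 1 + log ((P * (N / 2) : ℕ) + 1) ≤ L ∧ 1 + log (P * (N / 2) : ℕ) ≤ L := by
  have h1 := h.xlo
  have h2 := h.xup
  have hPN : (1000 : ℝ) * 1000 ≤ P * N := by nlinarith [h.P1, h.N1]
  generalize P * (N / 2) = x at *
  have hx3 : (1 : ℝ) ≤ x := by linarith
  have hl1 : log (x + 1) ≤ log (N * P) := log_le_log (by positivity) (by linarith)
  have hl2 : log x ≤ log (x + 1) := log_le_log (by positivity) (by linarith)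
  exact ⟨by exact_mod_cast hx3, by linarith [h.Llo], by linarith [h.Llo]⟩

theorem Par.Lpow (h : Par a N P A B L) {k : ℕ} (hk : k ≤ 14) : L ^ k ≤ P / 10 ^ 21 := by
  rw [le_div_iff₀ (by norm_num)]
  linarith [pow_le_pow_right₀ h.L1 hk, h.LP]

theorem first_one (h : Par a N P A B L) {p : ℕ} (h1 : p.Prime) (ha : ¬ (p : ℤ) ∣ a) (h2 : P < p)
    (h3 : p ≤ 4 * P) : (3 : ℝ) * N / 100 + ∑ n ∈ Ioc 0 (P * (N / 2)), Λ n * w a p n ≤
      L * ((Ioc N (P * (N / 2))).filter (fun q : ℕ => q.Prime ∧ (p : ℤ) ∣ q - a)).card := by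
  have hP := h.P1
  have hL := h.L1
  have hN := h.N1
  have hx1 := h.xlo
  have hx2 := h.xup
  obtain ⟨hx4, hl1, hl3⟩ := h.xlog
  have h4 := one_modulus (N := N) h1 ha hx4 hl3
  generalize P * (N / 2) = x at *
  have h2' : (P : ℝ) ≤ p := by exact_mod_cast h2.le
  have h3' : (p : ℝ) ≤ 4 * P := by exact_mod_cast h3
  have h5 := h.Lpow (k := 1) (by norm_num)
  rw [pow_one] at h5
  have h6 : L / p ≤ 1 / 1000 := by rw [div_le_iff₀ (by linarith)]; linarith
  have h7 : (x : ℝ) / p * L ≤ x / 1000 := by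
    calc _ = x * (L / p) := by ring
      _ ≤ x * (1 / 1000) := by gcongr
      _ = _ := by ring
  have hPN : (P : ℝ) * 1000 ≤ P * N := by gcongr; linarith
  have h8 : log (x + 1) ≤ x / 1000 := by linarith
  have h9 : (N : ℝ) / 20 ≤ (x * log 2 - log (x + 1) - x / p * L) / p := by
    rw [le_div_iff₀ (by linarith)]
    have e1 : (x : ℝ) * 0.69 ≤ x * log 2 := by gcongr; linarith [log_two_gt_d9]
    have e2 : (N : ℝ) / 20 * p ≤ N / 20 * (4 * P) := by gcongr
    linarith
  have h10 : L * (N / p + 1) ≤ N / 100 := by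
    calc _ = N * (L / p) + L := by ring
      _ ≤ N * (1 / 1000) + N / 1000 := by gcongr; linarith
      _ ≤ _ := by linarith
  have h11 : 2 * √x * L ≤ N / 100 := by
    refine abs_le_of_sq_le_sq' ?_ (by positivity) |>.2
    have e1 := h.Lpow (k := 2) (by norm_num)
    have e2 : (P : ℝ) ^ 2 ≤ N := (pow_le_pow_right₀ (by linarith) (by norm_num)).trans h.NP
    rw [mul_pow, mul_pow, sq_sqrt (by positivity)]
    calc _ ≤ 2 ^ 2 * ((P : ℝ) * N / 2) * (P / 10 ^ 21) := by gcongr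
      _ = 2 / 10 ^ 21 * ((P : ℝ) ^ 2 * N) := by ring
      _ ≤ 1 / 10 ^ 4 * ((N : ℝ) * N) := by gcongr ?_ * (?_ * _); norm_num
      _ = _ := by ring
  linarith

theorem cnt_le (h : Par a N P A B L) {i : ℕ} (hi : i ∈ Ico A B) [DecidablePred (Rep a N i)] :
    ((Ioc N (P * (N / 2))).filter (fun q : ℕ => q.Prime ∧ (pr i : ℤ) ∣ q - a)).card ≤
      ((range (N + 1)).filter (Rep a N i)).card := by
  have hP' : 1000 ≤ P := by exact_mod_cast h.P1
  refine le_trans (card_le_card fun q hq => ?_) (card_image_le (f := fun n => (Lf a i n).toNat))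
  simp only [mem_filter, mem_Ioc] at hq
  obtain ⟨⟨e1, e2⟩, e3, k, e4⟩ := hq
  obtain ⟨e5, e6⟩ := h.mem i hi
  have e7 := h.aP
  have e8 : i + 2 ≤ pr i := Nat.add_two_le_nth_prime i
  have e11 : 1000 * P ≤ N := by
    refine le_trans ?_ h.PN
    calc 1000 * P ≤ P * P := Nat.mul_le_mul_right _ hP'
      _ = P ^ 2 := by ring
      _ ≤ _ := Nat.pow_le_pow_right (by omega) (by norm_num)
  have e9 : 0 < k := (pos_iff_pos_of_mul_pos (by omega : (0 : ℤ) < pr i * k)).1 (by omega)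
  have e10 : k ≤ (N / 2 : ℕ) := by
    by_contra c
    have c1 : (P + 1 : ℤ) * ((N / 2 : ℕ) + 1) ≤ pr i * k :=
      mul_le_mul (by omega) (by omega) (by positivity) (by positivity)
    have c2 : (q : ℤ) ≤ P * (N / 2 : ℕ) := by exact_mod_cast e2
    have c3 : (0 : ℤ) ≤ (N / 2 : ℕ) := by positivity
    have c4 : -(P : ℤ) ≤ a := by omega
    nlinarith
  obtain ⟨k, rfl⟩ := Int.eq_ofNat_of_zero_le e9.le
  have e12 : Lf a i (k + i + 1) = q := by unfold Lf; push_cast; linear_combination -e4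
  refine mem_image.2 ⟨k + i + 1, mem_filter.2 ⟨mem_range.2 (by omega), ?_⟩, by simp [e12]⟩
  unfold Rep
  rw [e12]
  exact ⟨by simpa using e3, by exact_mod_cast e1⟩

theorem err_le (h : Par a N P A B L) {x : ℕ} (hx2 : (x : ℝ) ≤ P * N / 2) (hl3 : 1 + log x ≤ L) :
    400 * (1 + log x) ^ 8 * x ^ 2 / P ≤ (((B - A : ℕ) : ℝ) * N / 100) ^ 2 ∧
      36 * (P : ℝ) ^ 6 * (1 + log x) ≤ ((B - A : ℕ) : ℝ) * N / 100 := by
  have hP := h.P1
  have hL := h.L1
  have hML := h.ML
  have hl4 : 0 ≤ log x := log_natCast_nonneg x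
  have hm := h.many
  generalize ((B - A : ℕ) : ℝ) = M at *
  constructor
  · have h1 : (P : ℝ) ^ 2 ≤ (M * L) ^ 2 := by gcongr
    have h2 : 10 ^ 6 * L ^ 8 * P ≤ M ^ 2 := by
      refine le_of_mul_le_mul_right ?_ (by positivity : 0 < L ^ 2)
      have := h.Lpow (k := 10) (by norm_num)
      calc _ = 10 ^ 6 * L ^ 10 * P := by ring
        _ ≤ P * P := by gcongr; linarith
        _ = P ^ 2 := by ring
        _ ≤ _ := h1.trans_eq (by ring)
    calc _ ≤ 400 * L ^ 8 * (P * N / 2) ^ 2 / P := by gcongr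
      _ = 10 ^ 6 * L ^ 8 * P * (N / 100) ^ 2 := by field_simp; ring
      _ ≤ M ^ 2 * (N / 100) ^ 2 := by gcongr
      _ = _ := by ring
  · have h1 : L ≤ L ^ 13 := le_self_pow₀ hL (by norm_num)
    have h2 := h.NP
    calc _ ≤ 36 * N * L := by gcongr
      _ = N * (36 * L) := by ring
      _ ≤ N * (M / 100) := by gcongr; linarith
      _ = _ := by ring

theorem first (ha : a ≠ 0) (h : Par a N P A B L) :
    ((B - A : ℕ) : ℝ) * N / (100 * L) ≤ ∑ n ∈ range (N + 1), (rr a N A B n : ℝ) := by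
  classical
  have hL := h.L1
  have hP' : 1000 ≤ P := by exact_mod_cast h.P1
  obtain ⟨hx4, -, hl3⟩ := h.xlog
  set S := (Ico A B).image pr with hS
  have hSc : S.card = B - A := by rw [card_image_of_injective _ pr_mono.injective, Nat.card_Ico]
  have hSm : ∀ p ∈ S, p.Prime ∧ P < p ∧ p ≤ 4 * P := fun p hp => by
    obtain ⟨i, hi, rfl⟩ := mem_image.1 hp
    exact ⟨pr_prime i, h.mem i hi⟩
  have hG : Good a P S := fun p hp => ⟨(hSm p hp).1, (hSm p hp).2.1, fun hd => by
    have h1 := Nat.le_of_dvd (Int.natAbs_pos.2 ha) (Int.natCast_dvd.1 hd)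
    have := h.aP
    have := (hSm p hp).2.1
    omega⟩
  have hS4 : S.card ≤ 4 * P := by
    refine (card_le_card (t := Ioc 0 (4 * P)) fun p hp => ?_).trans (by simp)
    exact mem_Ioc.2 ⟨(hSm p hp).1.pos, (hSm p hp).2.2⟩
  obtain ⟨E, hE1, hE2⟩ := disp hG (by omega) hS4 hx4
  obtain ⟨hE3, hE4⟩ := err_le h h.xup hl3
  have h2 := sum_le_sum fun p (hp : p ∈ S) =>
    first_one h (hSm p hp).1 (hG p hp).2.2 (hSm p hp).2.1 (hSm p hp).2.2
  rw [sum_add_distrib, sum_const, nsmul_eq_mul, hSc, sum_comm, ← mul_sum] at h2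
  simp only [← mul_sum] at h2
  have h3 : ∑ p ∈ S, (((Ioc N (P * (N / 2))).filter
      (fun q : ℕ => q.Prime ∧ (p : ℤ) ∣ q - a)).card : ℝ) ≤
      ∑ n ∈ range (N + 1), (rr a N A B n : ℝ) := by
    rw [hS, sum_image fun _ _ _ _ e => pr_mono.injective e]
    simp only [rr, card_filter (fun i => Rep a N i _)]
    push_cast
    rw [sum_comm]
    refine sum_le_sum fun i hi => ?_
    rw [← sum_filter, sum_const, nsmul_eq_mul, mul_one]
    exact Nat.cast_le.2 (cnt_le h hi)
  rw [div_le_iff₀ (by positivity)]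
  have h4 := mul_le_mul_of_nonneg_left h3 (by linarith : 0 ≤ L)
  have h5 := (abs_le.1 (hE2.trans hE4)).1
  have h6 := (abs_le_of_sq_le_sq' (hE1.trans hE3) (by positivity)).1
  unfold W at h5
  linarith

end Pool.Agent.P.MP_0993da_nt
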