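import Pool.Agent.P.MP_0993da_nt.Vau

/-!
Two linear forms taking prime values, and the size of the singular factor.
-/

namespace Pool.Agent.P.MP_0993da_nt

open Finset Real Pool.Agent.Lib.Sieve

/-- A prime value that is not too small. -/
def Big (T : ℕ) (z : ℤ) : Prop := z.toNat.Prime ∧ (T : ℤ) ≤ 4 * z

instance (T : ℕ) (z : ℤ) : Decidable (Big T z) := by unfold Big; infer_instance

/-- The root of a linear form modulo `l`. -/
def rt (l : ℕ) (s b : ℤ) : ℕ := (-(b : ZMod l) * (s : ZMod l)⁻¹).val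

theorem rt_lt {l : ℕ} (hl : 0 < l) (s b : ℤ) : rt l s b < l := by
  have : NeZero l := ⟨hl.ne'⟩
  exact ZMod.val_lt _

theorem rt_dvd {l : ℕ} (hl : l.Prime) {s : ℤ} (hs : ¬ (l : ℤ) ∣ s) (b : ℤ) {n : ℕ}
    (h : n % l = rt l s b) : (l : ℤ) ∣ s * n + b := by
  have := Fact.mk hl
  have hs' : (s : ZMod l) ≠ 0 := fun h => hs ((ZMod.intCast_zmod_eq_zero_iff_dvd s l).1 h)
  have h1 : (n : ZMod l) = -(b : ZMod l) * (s : ZMod l)⁻¹ := by
    rw [← ZMod.natCast_mod, h, rt, ZMod.natCast_zmod_val]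
  rw [← ZMod.intCast_zmod_eq_zero_iff_dvd]
  push_cast
  rw [h1]
  field_simp
  ring

theorem Big.not_dvd {T l : ℕ} {z : ℤ} (h : Big T z) (hl : l.Prime) (hT : 4 * l < T) :
    ¬ (l : ℤ) ∣ z := by
  intro hd
  have h0 : 0 ≤ z := by have := h.2; omega
  obtain ⟨q, rfl⟩ := Int.eq_ofNat_of_zero_le h0
  have h1 := h.1
  have h2 := h.2
  rw [Int.toNat_natCast] at h1
  have := (Nat.prime_dvd_prime_iff_eq hl h1).1 (Int.natCast_dvd_natCast.1 hd)
  omega

/-- The constant in the upper bound sieve. -/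
noncomputable def C0 : ℝ := 12800 * exp 6 + 300

theorem C0_pos : 0 < C0 := by unfold C0; positivity

theorem pair_gen {T D : ℕ} (hT : 2 ^ 120 ≤ T) (hD : D ≠ 0) (s b s' b' : ℤ)
    (h : ∀ l : ℕ, l.Prime → ¬ l ∣ D →
      ¬ (l : ℤ) ∣ s ∧ ¬ (l : ℤ) ∣ s' ∧ ¬ (l : ℤ) ∣ s * b' - s' * b) :
    (((range T).filter (fun t : ℕ => Big T (s * t + b) ∧ Big T (s' * t + b'))).card : ℝ) ≤
      C0 * ew D ^ 2 * (T / log T ^ 2) := by
  classical
  obtain ⟨y, hy8, hlog, -, herr⟩ := exists_level hT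
  have hl := two_le_log hy8
  have hT1 : (2 : ℝ) ^ 120 ≤ T := by exact_mod_cast hT
  have hT0 : (0 : ℝ) < T := lt_of_lt_of_le (by positivity) hT1
  have hlT : 80 ≤ log T := by
    have := log_le_log (by positivity) hT1
    rw [log_pow] at this
    have := log_two_gt_d9
    push_cast at *
    linarith
  have hyT : 4 * y < T := by
    have h1 : (T : ℝ) / log T ^ 2 ≤ T / 80 ^ 2 := by gcongr
    have h2 : (0 : ℝ) ≤ (y : ℝ) ^ 36 := by positivity
    have : (4 : ℝ) * y < T := by linarith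
    exact_mod_cast this
  let Ω : ℕ → Finset ℕ := fun l => if l ∣ D then ∅ else {rt l s b, rt l s' b'}
  have h1 := sieve_upper Ω (sp y) hy8 (fun p hp => mem_sp hp)
    (fun p hp => by
      have hp0 := (mem_sp hp).1.pos
      simp only [Ω]
      split_ifs
      · exact empty_subset _
      · intro r hr
        simp only [mem_insert, mem_singleton] at hr
        rcases hr with rfl | rfl <;> exact mem_range.2 (rt_lt hp0 _ _))
    (fun p _ => by
      simp only [Ω]
      split_ifs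
      · simp
      · exact card_le_two) T
  have hsub : (range T).filter (fun t : ℕ => Big T (s * t + b) ∧ Big T (s' * t + b')) ⊆
      (range T).filter (fun n => ∀ p ∈ sp y, n % p ∉ Ω p) := by
    intro t ht
    rw [mem_filter] at ht ⊢
    refine ⟨ht.1, fun p hp => ?_⟩
    obtain ⟨hpp, -, hpy⟩ := mem_sp hp
    simp only [Ω]
    split_ifs with hd
    · simp
    · obtain ⟨h2, h3, -⟩ := h p hpp hd
      simp only [mem_insert, mem_singleton, not_or]
      exact ⟨fun e => ht.2.1.not_dvd hpp (by omega) (rt_dvd hpp h2 b e),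
        fun e => ht.2.2.not_dvd hpp (by omega) (rt_dvd hpp h3 b' e)⟩
  have h3 : ∀ p ∈ sp y, 2 * (1 / (p : ℝ)) - 2 * (if p ∣ D then 1 / (p : ℝ) else 0) ≤
      ((Ω p).card : ℝ) / p := by
    intro p hp
    obtain ⟨hpp, -, -⟩ := mem_sp hp
    simp only [Ω]
    split_ifs with hd
    · simp
    · obtain ⟨h2, h3, h4⟩ := h p hpp hd
      have hne : rt p s b ≠ rt p s' b' := by
        intro e
        have e1 := rt_dvd hpp h2 b (Nat.mod_eq_of_lt (rt_lt hpp.pos s b))
        have e2 := rt_dvd hpp h3 b' ((Nat.mod_eq_of_lt (rt_lt hpp.pos s b)).trans e)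
        apply h4
        have := dvd_sub (e2.mul_left s) (e1.mul_left s')
        rwa [show s * (s' * (rt p s b : ℤ) + b') - s' * (s * (rt p s b : ℤ) + b) =
          s * b' - s' * b by ring] at this
      rw [card_pair hne]
      push_cast
      apply le_of_eq; ring
  have h4 := sum_le_sum h3
  rw [sum_sub_distrib, ← mul_sum, ← mul_sum] at h4
  have h5 := sum_ite_dvd_le (sp y) (fun p hp => (mem_sp hp).1) hD
  have h8 := le_sum_sp (y := y) (by omega)
  have h9 : exp (-∑ p ∈ sp y, ((Ω p).card : ℝ) / p) ≤ exp 6 * ew D ^ 2 / log y ^ 2 := by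
    have : log y ^ 2 = exp (2 * log (log y)) := by
      rw [show (2 : ℝ) * log (log y) = (2 : ℕ) * log (log y) by norm_num, exp_nat_mul,
        exp_log (by linarith)]
    rw [this, ew, ← exp_nat_mul, ← exp_add, ← exp_sub]
    exact exp_le_exp.2 (by push_cast; linarith)
  have hE : 1 ≤ ew D ^ 2 := one_le_pow₀ (one_le_ew D)
  set E := ew D ^ 2
  have h10 : 2 * (T : ℝ) * exp (-∑ p ∈ sp y, ((Ω p).card : ℝ) / p) ≤
      12800 * exp 6 * E * (T / log T ^ 2) := by
    have h12 : (log T / 80) ^ 2 ≤ log y ^ 2 := by gcongr; linarith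
    calc _ ≤ 2 * T * (exp 6 * E / log y ^ 2) := by gcongr
      _ ≤ 2 * T * (exp 6 * E / (log T / 80) ^ 2) := by gcongr
      _ = _ := by field_simp; norm_num
  have h13 : 300 * (T / log T ^ 2) ≤ 300 * E * (T / log T ^ 2) := by
    have : (0 : ℝ) ≤ T / log T ^ 2 := by positivity
    nlinarith
  have h14 : (((range T).filter (fun t : ℕ => Big T (s * t + b) ∧ Big T (s' * t + b'))).card : ℝ) ≤
      ((range T).filter (fun n => ∀ p ∈ sp y, n % p ∉ Ω p)).card := by
    exact_mod_cast card_le_card hsub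
  have h15 : (0 : ℝ) ≤ y := by positivity
  calc _ ≤ 12800 * exp 6 * E * (T / log T ^ 2) + 300 * E * (T / log T ^ 2) := by linarith
    _ = _ := by unfold C0; ring

theorem ew_mul_le {m n : ℕ} (hm : m ≠ 0) (hn : n ≠ 0) : ew (m * n) ≤ ew m * ew n := by
  unfold ew
  rw [← exp_add, Nat.primeFactors_mul hm hn, exp_le_exp, ← sum_union_inter]
  exact le_add_of_nonneg_right (sum_nonneg fun _ _ => by positivity)

theorem ew_prime {p : ℕ} (hp : p.Prime) : ew p ≤ 2 := by
  unfold ew
  rw [hp.primeFactors, sum_singleton, ← le_log_iff_exp_le (by norm_num)]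
  have h2 : (2 : ℝ) ≤ p := by exact_mod_cast hp.two_le
  have := one_div_le_one_div_of_le (by norm_num) h2
  linarith [log_two_gt_d9]

theorem ew_prime_mul {p n : ℕ} (hp : p.Prime) (hn : n ≠ 0) : ew (p * n) ≤ 2 * ew n :=
  (ew_mul_le hp.ne_zero hn).trans (mul_le_mul_of_nonneg_right (ew_prime hp) (ew_pos n).le)

theorem ew_sq_le (D : ℕ) :
    ew D ^ 2 ≤ 100 * exp 16 * (2 + ∑ l ∈ D.primeFactors, (l : ℝ) ^ (-(3 / 4) : ℝ)) := by
  classical
  set σ := ∑ l ∈ D.primeFactors, (l : ℝ) ^ (-(3 / 4) : ℝ) with hσ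
  have hσ0 : 0 ≤ σ := sum_nonneg fun _ _ => by positivity
  set u := 2 + σ with hu
  have hu2 : 2 ≤ u := by linarith
  have hu4 : 2 ≤ u ^ 4 := hu2.trans (le_self_pow₀ (by linarith) (by norm_num))
  set z := ⌈u ^ 4⌉₊ with hz
  have hz1 : u ^ 4 ≤ z := Nat.le_ceil _
  have hz2 : (z : ℝ) ≤ u ^ 5 := by
    have := (Nat.ceil_lt_add_one (by linarith : 0 ≤ u ^ 4)).le
    nlinarith
  have hz3 : 2 ≤ z := by exact_mod_cast hu4.trans hz1
  have h1 : ∑ l ∈ D.primeFactors, 1 / (l : ℝ) ≤ log (log z) + 8 := by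
    rw [← sum_filter_add_sum_filter_not _ (fun l => l ≤ z)]
    have h2 : ∑ l ∈ D.primeFactors.filter (fun l => l ≤ z), 1 / (l : ℝ) ≤ log (log z) + 7 := by
      refine le_trans (sum_le_sum_of_subset_of_nonneg (fun l hl => ?_) fun _ _ _ => by positivity)
        (sum_inv_primes_le hz3)
      rw [mem_filter] at hl
      exact Nat.mem_primesLE.2 ⟨hl.2, Nat.prime_of_mem_primeFactors hl.1⟩
    have h3 : ∑ l ∈ D.primeFactors.filter (fun l => ¬ l ≤ z), 1 / (l : ℝ) ≤ σ / u := by
      rw [hσ, sum_div]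
      refine le_trans (sum_le_sum fun l hl => ?_)
        (sum_le_sum_of_subset_of_nonneg (filter_subset _ _) fun _ _ _ => by positivity)
      have hl1 : u ^ 4 ≤ l := hz1.trans (by exact_mod_cast (not_le.1 (mem_filter.1 hl).2).le)
      have hl0 : (0 : ℝ) < l := by linarith
      have h4 : u ≤ (l : ℝ) ^ ((1 / 4) : ℝ) := by
        have := rpow_le_rpow (by positivity) hl1 (by norm_num : (0 : ℝ) ≤ 1 / 4)
        rwa [← rpow_natCast, ← rpow_mul (by linarith), show ((4 : ℕ) : ℝ) * (1 / 4) = 1 by norm_num,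
          rpow_one] at this
      have h5 : 1 / (l : ℝ) = (l : ℝ) ^ (-(3 / 4) : ℝ) / (l : ℝ) ^ ((1 / 4) : ℝ) := by
        rw [← rpow_sub hl0, one_div, ← rpow_neg_one]; norm_num
      rw [h5]
      gcongr
    have h4 : σ / u ≤ 1 := by rw [div_le_one (by linarith)]; linarith
    linarith
  have hlz : 0 < log z := log_pos (by exact_mod_cast hz3)
  have h2 : ew D ≤ exp 8 * log z := by
    unfold ew
    refine (exp_le_exp.2 h1).trans (le_of_eq ?_)
    rw [exp_add, exp_log hlz, mul_comm]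
  have h3 : log z ≤ 10 * √u := by
    have h4 : log z ≤ log (u ^ 5) := log_le_log (by positivity) hz2
    have h5 : log u = 2 * log √u := by rw [log_sqrt (by linarith)]; ring
    have h6 := log_le_sub_one_of_pos (sqrt_pos.2 (by linarith : 0 < u))
    rw [log_pow] at h4
    push_cast at h4
    linarith
  calc ew D ^ 2 ≤ (exp 8 * (10 * √u)) ^ 2 := by
        have := (ew_pos D).le
        gcongr
        exact h2.trans (by gcongr)
    _ = _ := by
        rw [mul_pow, mul_pow, sq_sqrt (by linarith), ← exp_nat_mul]; norm_num; ring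

theorem sigma_le {D Y : ℕ} (hD : D ≠ 0) {L : ℝ} (hL : 1 ≤ L) (hDL : log D ≤ L) (hY : L ^ 2 ≤ Y) :
    ∑ l ∈ D.primeFactors, (l : ℝ) ^ (-(3 / 4) : ℝ) ≤
      2 + ∑ l ∈ Nat.primesLE Y, if l ∣ D then (l : ℝ) ^ (-(3 / 4) : ℝ) else 0 := by
  classical
  rw [← sum_filter_add_sum_filter_not _ (fun l => l ≤ Y), add_comm, ← sum_filter]
  refine add_le_add ?_ (sum_le_sum_of_subset_of_nonneg (fun l hl => ?_) fun _ _ _ => by positivity)
  · calc _ ≤ ∑ l ∈ D.primeFactors.filter (fun l => ¬ l ≤ Y), 2 / L * log l := by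
          refine sum_le_sum fun l hl => ?_
          rw [mem_filter] at hl
          have h1 : L ^ 2 ≤ l := hY.trans (by exact_mod_cast (not_le.1 hl.2).le)
          have h2 := one_half_le_log (Nat.prime_of_mem_primeFactors hl.1).two_le
          have h3 : (l : ℝ) ^ (-(3 / 4) : ℝ) ≤ 1 / L := by
            calc _ ≤ (L ^ 2) ^ (-(3 / 4) : ℝ) :=
                  rpow_le_rpow_of_nonpos (by positivity) h1 (by norm_num)
              _ = L ^ (-(3 / 2) : ℝ) := by
                  rw [← rpow_natCast, ← rpow_mul (by linarith)]; norm_num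
              _ ≤ L ^ (-1 : ℝ) := rpow_le_rpow_of_exponent_le hL (by norm_num)
              _ = _ := by rw [rpow_neg_one, one_div]
          have h4 : 0 < 1 / L := by positivity
          have : 2 / L * log l = 1 / L * (2 * log l) := by ring
          nlinarith
      _ ≤ 2 / L * L := by
          rw [← mul_sum]
          refine mul_le_mul_of_nonneg_left ?_ (by positivity)
          exact (sum_le_sum_of_subset_of_nonneg (filter_subset _ _)
            fun l _ _ => log_natCast_nonneg l).trans ((sum_log_primeFactors_le hD).trans hDL)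
      _ = 2 := by field_simp
  · simp only [mem_filter, Nat.mem_primesLE] at hl ⊢
    exact ⟨⟨hl.2, Nat.prime_of_mem_primeFactors hl.1⟩, Nat.dvd_of_mem_primeFactors hl.1⟩

end Pool.Agent.P.MP_0993da_nt
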