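import Pool.Agent.Lib.Sieve.Shifted

/-!
Periodic sums, monotone weights, and the local mean zero function of a residue class.
-/

namespace Pool.Agent.P.MP_0993da_nt

open Finset Real Pool.Agent.Lib.Sieve

theorem abel_mono (g : ℕ → ℝ) {B : ℝ} (t : ℕ) (hg : ∀ s, |∑ n ∈ Ico s t, g n| ≤ B) :
    ∀ (k s : ℕ) (φ : ℕ → ℝ), s + k = t → 0 ≤ φ s → (∀ n, s ≤ n → φ n ≤ φ (n + 1)) →
      |∑ n ∈ Ico s t, φ n * g n| ≤ B * φ t := by
  have hB : 0 ≤ B := (abs_nonneg _).trans (hg 0)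
  intro k
  induction k with
  | zero =>
    intro s φ h h0 _
    obtain rfl : s = t := by omega
    simpa using mul_nonneg hB h0
  | succ k ih =>
    intro s φ h h0 hm
    have h1 := ih (s + 1) (fun n => φ n - φ s) (by omega) (by linarith [hm s le_rfl])
      (fun n hn => by linarith [hm n (by omega)])
    have h2 : ∑ n ∈ Ico s t, φ n * g n =
        φ s * ∑ n ∈ Ico s t, g n + ∑ n ∈ Ico (s + 1) t, (φ n - φ s) * g n := by
      have h3 : ∑ n ∈ Ico s t, (φ n - φ s) * g n = ∑ n ∈ Ico (s + 1) t, (φ n - φ s) * g n := by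
        rw [sum_eq_sum_Ico_succ_bot (by omega : s < t)]; simp
      rw [← h3, mul_sum, ← sum_add_distrib]
      exact sum_congr rfl fun n _ => by ring
    rw [h2]
    refine (abs_add_le _ _).trans ?_
    rw [abs_mul, abs_of_nonneg h0]
    have := mul_le_mul_of_nonneg_left (hg s) h0
    nlinarith

theorem abel_Ioc (g : ℕ → ℝ) {B : ℝ} (hg : ∀ s t, |∑ n ∈ Ico s t, g n| ≤ B) (φ : ℕ → ℝ)
    (h0 : ∀ n, 0 ≤ φ n) (hm : ∀ n, 1 ≤ n → φ n ≤ φ (n + 1)) (s t : ℕ) :
    |∑ n ∈ Ioc s t, φ n * g n| ≤ B * φ (t + 1) := by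
  have hB : 0 ≤ B := (abs_nonneg _).trans (hg 0 0)
  by_cases h : s ≤ t
  · have e : Ioc s t = Ico (s + 1) (t + 1) := by ext n; simp only [mem_Ioc, mem_Ico]; omega
    rw [e]
    exact abel_mono g (t + 1) (fun s => hg s _) (t - s) (s + 1) φ (by omega) (h0 _)
      (fun n hn => hm n (by omega))
  · rw [Ioc_eq_empty (by omega)]
    simpa using mul_nonneg hB (h0 _)

theorem per_shift {q : ℕ} (F : ℕ → ℝ) (hF : ∀ n, F n = F (n % q)) (s : ℕ) :
    ∑ n ∈ Ico s (s + q), F n = ∑ n ∈ range q, F n := by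
  induction s with
  | zero => simp
  | succ s ih =>
    rcases Nat.eq_zero_or_pos q with rfl | hq
    · simp
    have h1 : ∑ n ∈ Ico s (s + q + 1), F n = ∑ n ∈ Ico s (s + q), F n + F (s + q) :=
      sum_Ico_succ_top (by omega) _
    have h2 : ∑ n ∈ Ico s (s + q + 1), F n = F s + ∑ n ∈ Ico (s + 1) (s + q + 1), F n :=
      sum_eq_sum_Ico_succ_bot (by omega) _
    have h3 : F (s + q) = F s := by rw [hF (s + q), hF s, Nat.add_mod_right]
    rw [show s + 1 + q = s + q + 1 by ring]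
    linarith

theorem per_zero {q : ℕ} (hq : 0 < q) (F : ℕ → ℝ) (hF : ∀ n, F n = F (n % q))
    (h0 : ∑ n ∈ range q, F n = 0) (s t : ℕ) :
    |∑ n ∈ Ico s t, F n| ≤ ∑ n ∈ range q, |F n| := by
  have key : ∀ k s, t ≤ s + k → |∑ n ∈ Ico s t, F n| ≤ ∑ n ∈ range q, |F n| := by
    intro k
    induction k with
    | zero =>
      intro s h
      rw [Ico_eq_empty (by omega)]
      simpa using sum_nonneg fun n _ => abs_nonneg (F n)
    | succ k ih =>
      intro s h
      by_cases h1 : t ≤ s + q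
      · refine (abs_sum_le_sum_abs _ _).trans ?_
        rw [← per_shift (fun n => |F n|) (fun n => by rw [← hF]) s]
        exact sum_le_sum_of_subset_of_nonneg (Ico_subset_Ico_right h1) fun _ _ _ => abs_nonneg _
      · rw [← sum_Ico_consecutive F (Nat.le_add_right s q) (by omega), per_shift F hF, h0, zero_add]
        exact ih _ (by omega)
  exact key t s (by omega)

theorem per_nonneg {q : ℕ} (hq : 0 < q) (F : ℕ → ℝ) (hF : ∀ n, F n = F (n % q))
    (h0 : ∀ n, 0 ≤ F n) (s t : ℕ) :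
    ∑ n ∈ Ioc s t, F n ≤ ((t : ℝ) / q + 1) * ∑ n ∈ range q, F n := by
  have h1 : Ioc s t ⊆ range (q * (t / q + 1)) := by
    intro n hn
    have := Nat.lt_mul_div_succ t hq
    rw [mem_Ioc] at hn
    rw [mem_range]; omega
  refine (sum_le_sum_of_subset_of_nonneg h1 fun n _ _ => h0 n).trans ?_
  rw [sum_range_mul_periodic F hF]
  refine mul_le_mul_of_nonneg_right ?_ (sum_nonneg fun n _ => h0 n)
  push_cast
  linarith [(Nat.cast_div_le : ((t / q : ℕ) : ℝ) ≤ t / q)]

/-- Indicator of the class `a` modulo `p`. -/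
noncomputable def ind (a : ℤ) (p n : ℕ) : ℝ := if (p : ℤ) ∣ n - a then 1 else 0

/-- Indicator of the class `a` modulo `p`, minus its mean over the units. -/
noncomputable def w (a : ℤ) (p n : ℕ) : ℝ :=
  ind a p n - if p ∣ n then 0 else 1 / ((p : ℝ) - 1)

theorem ind_nonneg (a : ℤ) (p n : ℕ) : 0 ≤ ind a p n := by unfold ind; split_ifs <;> norm_num

theorem ind_le_one (a : ℤ) (p n : ℕ) : ind a p n ≤ 1 := by unfold ind; split_ifs <;> norm_num

theorem ind_congr (a : ℤ) {p n n' : ℕ} (h : n ≡ n' [MOD p]) : ind a p n = ind a p n' := by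
  have h1 : (p : ℤ) ∣ (n' : ℤ) - n := h.dvd
  have : (p : ℤ) ∣ n - a ↔ (p : ℤ) ∣ n' - a := by
    constructor
    · intro h2; have := dvd_add h2 h1; rwa [show (n : ℤ) - a + (n' - n) = n' - a by ring] at this
    · intro h2; have := dvd_sub h2 h1; rwa [show (n' : ℤ) - a - (n' - n) = n - a by ring] at this
  unfold ind
  simp only [this]

theorem w_congr (a : ℤ) {p n n' : ℕ} (h : n ≡ n' [MOD p]) : w a p n = w a p n' := by
  unfold w
  rw [ind_congr a h]
  have : p ∣ n ↔ p ∣ n' := h.dvd_iff dvd_rfl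
  simp only [this]

theorem mod_mul {p q : ℕ} (h : p ∣ q) (d m : ℕ) : d * m ≡ (d % q) * m [MOD p] :=
  (((Nat.mod_modEq d q).of_dvd h).mul_right m).symm

theorem sum_range_zmod {p : ℕ} [NeZero p] (F : ZMod p → ℝ) :
    ∑ d ∈ range p, F (d : ZMod p) = ∑ z : ZMod p, F z := by
  refine sum_nbij' (fun n => (n : ZMod p)) (fun x => x.val) ?_ ?_ ?_ ?_ ?_
  · intro n _; simp
  · intro x _; simp [ZMod.val_lt]
  · intro n hn; exact ZMod.val_cast_of_lt (mem_range.1 hn)
  · intro x _; simp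
  · intro n _; rfl

theorem ind_eq (a : ℤ) (p n : ℕ) :
    ind a p n = if (n : ZMod p) = (a : ZMod p) then 1 else 0 := by
  unfold ind
  have : (p : ℤ) ∣ n - a ↔ (n : ZMod p) = (a : ZMod p) := by
    rw [← ZMod.intCast_zmod_eq_zero_iff_dvd]; push_cast; exact sub_eq_zero
  simp only [this]

theorem sum_ind {a : ℤ} {p : ℕ} (hp : p.Prime) (ha : ¬ (p : ℤ) ∣ a) (m : ℕ) :
    ∑ d ∈ range p, ind a p (d * m) = if p ∣ m then 0 else 1 := by
  have := Fact.mk hp
  have ha' : (a : ZMod p) ≠ 0 := fun h => ha ((ZMod.intCast_zmod_eq_zero_iff_dvd a p).1 h)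
  simp only [ind_eq, Nat.cast_mul]
  rw [sum_range_zmod (fun z : ZMod p => if z * (m : ZMod p) = a then (1 : ℝ) else 0)]
  split_ifs with h
  · have : (m : ZMod p) = 0 := (ZMod.natCast_eq_zero_iff m p).2 h
    simp [this, ha'.symm]
  · have hm : (m : ZMod p) ≠ 0 := fun h' => h ((ZMod.natCast_eq_zero_iff m p).1 h')
    simp only [← eq_div_iff hm]
    simp

theorem sum_w {a : ℤ} {p : ℕ} (hp : p.Prime) (ha : ¬ (p : ℤ) ∣ a) (m : ℕ) :
    ∑ d ∈ range p, w a p (d * m) = 0 := by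
  unfold w
  rw [sum_sub_distrib, sum_ind hp ha]
  have h2 : (2 : ℝ) ≤ p := by exact_mod_cast hp.two_le
  split_ifs with h
  · simp [dvd_mul_of_dvd_right h]
  · obtain ⟨k, rfl⟩ : ∃ k, p = k + 1 := ⟨p - 1, by have := hp.pos; omega⟩
    rw [sum_range_succ']
    have : ∀ d ∈ range k, (if k + 1 ∣ (d + 1) * m then (0 : ℝ) else 1 / (((k + 1 : ℕ) : ℝ) - 1)) =
        1 / (k : ℝ) := by
      intro d hd
      rw [if_neg]
      · push_cast; ring
      · intro h'
        rcases (Nat.Prime.dvd_mul hp).1 h' with h3 | h3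
        · have := Nat.le_of_dvd (by omega) h3
          rw [mem_range] at hd; omega
        · exact h h3
    rw [sum_congr rfl this]
    have hk : (k : ℝ) ≠ 0 := by push_cast at h2; linarith
    simp [hk]

theorem abs_w_le (a : ℤ) {p : ℕ} (hp : 2 ≤ p) (n : ℕ) :
    |w a p n| ≤ ind a p n + 1 / ((p : ℝ) - 1) := by
  have h2 : (2 : ℝ) ≤ p := by exact_mod_cast hp
  have h3 : 0 ≤ 1 / ((p : ℝ) - 1) := div_nonneg zero_le_one (by linarith)
  have := ind_nonneg a p n
  unfold w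
  rw [abs_le]
  split_ifs <;> constructor <;> linarith

theorem sum_ind_le {a : ℤ} {p : ℕ} (hp : p.Prime) (ha : ¬ (p : ℤ) ∣ a) (m : ℕ) :
    ∑ d ∈ range p, ind a p (d * m) ≤ 1 := by
  rw [sum_ind hp ha]; split_ifs <;> norm_num

theorem div_pred_le {p : ℕ} (hp : 2 ≤ p) : (p : ℝ) * (1 / ((p : ℝ) - 1)) ≤ 2 := by
  have h2 : (2 : ℝ) ≤ p := by exact_mod_cast hp
  rw [mul_one_div, div_le_iff₀ (by linarith)]; linarith

theorem sum_abs_w {a : ℤ} {p : ℕ} (hp : p.Prime) (ha : ¬ (p : ℤ) ∣ a) (m : ℕ) :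
    ∑ d ∈ range p, |w a p (d * m)| ≤ 3 := by
  refine (sum_le_sum fun d _ => abs_w_le a hp.two_le _).trans ?_
  rw [sum_add_distrib, sum_const, card_range, nsmul_eq_mul]
  linarith [sum_ind_le hp ha m, div_pred_le hp.two_le]

theorem sum_abs_ww {a : ℤ} {p : ℕ} (hp : p.Prime) (ha : ¬ (p : ℤ) ∣ a) (m m' : ℕ) :
    ∑ d ∈ range p, |w a p (d * m) * w a p (d * m')| ≤
      (if (p : ℤ) ∣ (m : ℤ) - m' then 1 else 0) + 4 / ((p : ℝ) - 1) := by
  have h2 : (2 : ℝ) ≤ p := by exact_mod_cast hp.two_le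
  set u : ℝ := 1 / ((p : ℝ) - 1) with hu
  have hu0 : 0 ≤ u := div_nonneg zero_le_one (by linarith)
  have h1 : ∀ d ∈ range p, |w a p (d * m) * w a p (d * m')| ≤
      (if (p : ℤ) ∣ (m : ℤ) - m' then 1 else 0) * ind a p (d * m) + u * ind a p (d * m) +
        u * ind a p (d * m') + u * u := by
    intro d _
    rw [abs_mul]
    refine (mul_le_mul (abs_w_le a hp.two_le _) (abs_w_le a hp.two_le _) (abs_nonneg _)
      (add_nonneg (ind_nonneg _ _ _) hu0)).trans ?_
    have h3 : ind a p (d * m) * ind a p (d * m') ≤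
        (if (p : ℤ) ∣ (m : ℤ) - m' then 1 else 0) * ind a p (d * m) := by
      split_ifs with h
      · nlinarith [ind_nonneg a p (d * m), ind_le_one a p (d * m')]
      · unfold ind
        split_ifs with h4 h5
        · exfalso
          have h6 := dvd_sub h4 h5
          push_cast at h6 h4
          rw [show (d : ℤ) * m - a - (d * m' - a) = d * (m - m') by ring] at h6
          rcases (Nat.prime_iff_prime_int.1 hp).dvd_or_dvd h6 with h7 | h7
          · apply ha
            have := dvd_sub (h7.mul_right (m : ℤ)) h4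
            rwa [sub_sub_cancel] at this
          · exact h h7
        all_goals norm_num
    rw [← hu]
    nlinarith
  refine (sum_le_sum h1).trans ?_
  simp only [sum_add_distrib, ← mul_sum, sum_const, card_range, nsmul_eq_mul]
  have h3 := sum_ind_le hp ha m
  have h4 := sum_ind_le hp ha m'
  have h5 := div_pred_le hp.two_le
  rw [← hu] at h5
  have h6 : (if (p : ℤ) ∣ (m : ℤ) - m' then (1 : ℝ) else 0) * ∑ d ∈ range p, ind a p (d * m) ≤
      if (p : ℤ) ∣ (m : ℤ) - m' then 1 else 0 := by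
    split_ifs <;> simp [h3]
  have h7 : 4 / ((p : ℝ) - 1) = 4 * u := by rw [hu]; ring
  nlinarith [mul_le_mul_of_nonneg_left h3 hu0, mul_le_mul_of_nonneg_left h4 hu0,
    mul_le_mul_of_nonneg_left h5 hu0]

theorem w_interval {a : ℤ} {p : ℕ} (hp : p.Prime) (ha : ¬ (p : ℤ) ∣ a) (m s t : ℕ) :
    |∑ d ∈ Ico s t, w a p (d * m)| ≤ 3 :=
  (per_zero hp.pos (fun d => w a p (d * m)) (fun d => w_congr a (mod_mul dvd_rfl d m))
    (sum_w hp ha m) s t).trans (sum_abs_w hp ha m)

theorem ww_interval {a : ℤ} {p p' : ℕ} (hp : p.Prime) (ha : ¬ (p : ℤ) ∣ a) (hp' : p'.Prime)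
    (ha' : ¬ (p' : ℤ) ∣ a) (hne : p ≠ p') (m m' s t : ℕ) :
    |∑ d ∈ Ico s t, w a p (d * m) * w a p' (d * m')| ≤ 9 := by
  have hc : p.Coprime p' := (Nat.coprime_primes hp hp').2 hne
  refine (per_zero (mul_pos hp.pos hp'.pos) (fun d => w a p (d * m) * w a p' (d * m'))
    (fun d => by
      rw [w_congr a (mod_mul (dvd_mul_right p p') d m),
        w_congr a (mod_mul (dvd_mul_left p' p) d m')]) ?_ s t).trans ?_
  · rw [sum_range_mul_coprime hc hp.pos hp'.pos (fun d => w a p (d * m)) (fun d => w a p' (d * m'))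
      (fun d => w_congr a (mod_mul dvd_rfl d m)) (fun d => w_congr a (mod_mul dvd_rfl d m')),
      sum_w hp ha, zero_mul]
  · simp only [abs_mul]
    rw [sum_range_mul_coprime hc hp.pos hp'.pos (fun d => |w a p (d * m)|)
      (fun d => |w a p' (d * m')|) (fun d => by rw [w_congr a (mod_mul dvd_rfl d m)])
      (fun d => by rw [w_congr a (mod_mul dvd_rfl d m')])]
    have h1 := sum_abs_w hp ha m
    have h2 := sum_abs_w hp' ha' m'
    calc _ ≤ (3 : ℝ) * 3 := mul_le_mul h1 h2 (sum_nonneg fun _ _ => abs_nonneg _) (by norm_num)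
      _ = 9 := by norm_num

end Pool.Agent.P.MP_0993da_nt
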