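import Pool.Agent.P.MP_0993da_nt.Coll

/-!
The collision bound and the second moment of the representation function.
-/

namespace Pool.Agent.P.MP_0993da_nt

open Finset Real Pool.Agent.Lib.Sieve

set_option maxHeartbeats 400000

/-- The size conditions on the parameters. -/
structure Par (a : ℤ) (N P A B : ℕ) (L : ℝ) : Prop where
  big : 2 ^ 240 ≤ P
  aP : a.natAbs ≤ P
  PN : P ^ 6 ≤ N
  LP : 10 ^ 21 * L ^ 14 ≤ P
  Lup : L ≤ 14 * log P
  Llo : 1 + log ((N : ℝ) * P) ≤ L
  mem : ∀ i ∈ Ico A B, P < pr i ∧ pr i ≤ 4 * P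
  many : (P : ℝ) ≤ (B - A : ℕ) * L

/-- The determinant of two of the linear forms. -/
noncomputable def Del (a : ℤ) (i i' : ℕ) : ℤ :=
  a * ((pr i' : ℤ) - pr i) + (pr i : ℤ) * pr i' * ((i' : ℤ) - i)

/-- The residue class of `n` excluded by the form with index `i`, up to a shift. -/
noncomputable def cls (a : ℤ) (l i : ℕ) : ZMod l := (i : ZMod l) - a * ((pr i : ℕ) : ZMod l)⁻¹

theorem cls_eq_iff (a : ℤ) {l i i' : ℕ} (hl : l.Prime) (hi : l < pr i) (hi' : l < pr i') :
    cls a l i = cls a l i' ↔ (l : ℤ) ∣ Del a i i' := by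
  have := Fact.mk hl
  have h0 : ∀ k, l < pr k → ((pr k : ℕ) : ZMod l) ≠ 0 := fun k hk h =>
    hk.ne ((Nat.prime_dvd_prime_iff_eq hl (pr_prime k)).1 ((ZMod.natCast_eq_zero_iff _ _).1 h))
  have h1 := h0 i hi
  have h2 := h0 i' hi'
  rw [← ZMod.intCast_zmod_eq_zero_iff_dvd]
  unfold cls Del
  push_cast
  constructor
  · intro h
    field_simp at h
    linear_combination -h
  · intro h
    field_simp
    linear_combination -h

variable {a : ℤ} {N P A B : ℕ} {L : ℝ}

theorem Par.P1 (h : Par a N P A B L) : (1000 : ℝ) ≤ P := by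
  have : 1000 ≤ P := le_trans (by norm_num) h.big
  exact_mod_cast this

theorem Par.NP (h : Par a N P A B L) : (P : ℝ) ^ 6 ≤ N := by exact_mod_cast h.PN

theorem Par.N1 (h : Par a N P A B L) : (P : ℝ) ≤ N :=
  (le_self_pow₀ (by linarith [h.P1]) (by norm_num)).trans h.NP

theorem Par.L1 (h : Par a N P A B L) : 1 ≤ L := by
  have : 0 ≤ log ((N : ℝ) * P) := log_nonneg (by nlinarith [h.P1, h.N1])
  linarith [h.Llo]

theorem Par.ML (h : Par a N P A B L) : 10 ^ 21 * L ^ 13 ≤ (B - A : ℕ) := by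
  have h1 := h.L1
  refine le_of_mul_le_mul_right ?_ (by linarith : 0 < L)
  calc _ = 10 ^ 21 * L ^ 14 := by ring
    _ ≤ _ := h.LP.trans h.many

/-- The constant in the collision bound. -/
noncomputable def C2 : ℝ := 10 ^ 6 * C0 * exp 15

theorem C2_pos : 0 < C2 := by have := C0_pos; unfold C2; positivity

theorem shift_le (h : Par a N P A B L) {l j H : ℕ} (hl : l.Prime) (hlL : (l : ℝ) ≤ 2 * L ^ 2)
    (hj0 : 0 < j) (hj : j < l) (hH : 0 < H) :
    (((Ico A B).filter (fun i => i + j < B ∧ cls a l i = cls a l (i + j))).card : ℝ) ≤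
      j * (4 * P) / H + C2 / 10 * (H * P / (l * L ^ 2)) := by
  classical
  have hP := h.P1
  have hL := h.L1
  have hl2 : (2 : ℝ) ≤ l := by exact_mod_cast hl.two_le
  have hll : (l : ℝ) ^ 2 ≤ P := by
    have h1 : L ^ 4 ≤ L ^ 14 := pow_le_pow_right₀ hL (by norm_num)
    have h2 : (l : ℝ) ^ 2 ≤ (2 * L ^ 2) ^ 2 := by gcongr
    have h3 : 0 ≤ L ^ 14 := by positivity
    nlinarith [h.LP]
  have hlP : l ≤ P := by
    have : (l : ℝ) ≤ P := by nlinarith
    exact_mod_cast this
  set T := 4 * P / l + 1 with hT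
  have hT1 : (4 * P : ℝ) / l ≤ T := by
    rw [div_le_iff₀ (by linarith)]
    have := Nat.lt_mul_div_succ (4 * P) hl.pos
    rw [mul_comm l] at this
    exact_mod_cast this.le
  have hT2 : (T : ℝ) ≤ 8 * P / l := by
    have h1 : ((4 * P / l : ℕ) : ℝ) ≤ (4 * P : ℕ) / l := Nat.cast_div_le
    have h2 : (1 : ℝ) ≤ 4 * P / l := by rw [le_div_iff₀ (by linarith)]; nlinarith
    have : (8 * P / l : ℝ) = 4 * P / l + 4 * P / l := by ring
    rw [hT]; push_cast at h1 ⊢; linarith
  have hT3 : (P : ℝ) ≤ (T : ℝ) ^ 2 := by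
    have h1 : (P : ℝ) ≤ (4 * P / l) ^ 2 := by
      rw [div_pow, le_div_iff₀ (by positivity)]; nlinarith
    exact h1.trans (by gcongr)
  have hT4 : 2 ^ 120 ≤ T := by
    have h1 : P ≤ T ^ 2 := by exact_mod_cast hT3
    by_contra h2
    have h3 : T ^ 2 < (2 ^ 120) ^ 2 := Nat.pow_lt_pow_left (not_le.1 h2) (by norm_num)
    rw [← pow_mul] at h3
    exact absurd (h.big.trans h1) (not_le.2 h3)
  have hT5 : L / 28 ≤ log T := by
    have := log_le_log (by linarith) hT3
    rw [log_pow] at this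
    push_cast at this
    linarith [h.Lup]
  have hT6 : (T : ℝ) / log T ^ 2 ≤ 6272 * (P / (l * L ^ 2)) := by
    calc _ ≤ (8 * P / l) / (L / 28) ^ 2 := by gcongr
      _ = _ := by field_simp; norm_num
  set F := (Ico A B).filter (fun i => i + j < B ∧ pr i + H < pr (i + j))
  set G := (Ioc 0 H).sigma (fun k => (Ioc P (4 * P)).filter (fun p : ℕ => p.Prime ∧ (p + k).Prime ∧
      (l : ℤ) ∣ j * p ^ 2 + j * k * p + a * k))
  set E := (Ico A B).filter (fun i => i + j < B ∧ cls a l i = cls a l (i + j))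
  have h1 : (E \ F).card ≤ G.card := by
    refine card_le_card_of_injOn (fun i => ⟨pr (i + j) - pr i, pr i⟩) ?_ ?_
    · intro i hi
      simp only [E, F, coe_sdiff, coe_filter, Set.mem_sdiff, Set.mem_ofPred_eq, not_and] at hi
      obtain ⟨⟨h1, h2, h3⟩, h4⟩ := hi
      have h5 := not_lt.1 (h4 h1 h2)
      have h6 : pr i < pr (i + j) := pr_mono (by omega)
      have h7 := h.mem i h1
      rw [cls_eq_iff a hl (by omega) (by omega)] at h3
      simp only [G, mem_coe, mem_sigma, mem_filter, mem_Ioc, Nat.add_sub_cancel' h6.le]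
      refine ⟨⟨by omega, by omega⟩, h7, pr_prime _, pr_prime _, ?_⟩
      rw [Nat.cast_sub h6.le]
      refine h3.trans (dvd_of_eq ?_)
      unfold Del
      push_cast
      ring
    · intro i _ i' _ e
      simp only [Sigma.mk.injEq, heq_eq_eq] at e
      exact pr_mono.injective e.2
  have h2 : (F.card : ℝ) ≤ j * (4 * P) / H := by
    rw [le_div_iff₀ (by exact_mod_cast hH)]
    exact_mod_cast far_le (X := 4 * P) (fun i hi => (h.mem i hi).2)
  have hC := C0_pos
  have h3 : (G.card : ℝ) ≤ C2 / 10 * (H * P / (l * L ^ 2)) := by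
    rw [card_sigma]
    push_cast
    calc _ ≤ ∑ k ∈ Ioc 0 H, 8 * C0 * ew k ^ 3 * (6272 * (P / (l * L ^ 2))) := by
          refine sum_le_sum fun k hk => (near_le a hl (Nat.not_dvd_of_pos_of_lt hj0 hj)
            (mem_Ioc.1 hk).1.ne' hT4).trans ?_
          have := pow_le_pow_right₀ (one_le_ew k) (by norm_num : 2 ≤ 3)
          have := (ew_pos k).le
          gcongr
      _ ≤ 8 * C0 * (exp 15 * H) * (6272 * (P / (l * L ^ 2))) := by
          rw [← sum_mul, ← mul_sum]
          gcongr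
          exact sum_ew_cube_le H
      _ = 50176 * (C0 * exp 15 * (H * P / (l * L ^ 2))) := by ring
      _ ≤ 100000 * (C0 * exp 15 * (H * P / (l * L ^ 2))) := by gcongr; norm_num
      _ = _ := by unfold C2; ring
  have h4 : (E.card : ℝ) ≤ F.card + (E \ F).card := by
    exact_mod_cast (card_le_card (subset_union_right.trans union_sdiff_self_eq_union.ge)).trans
      (card_union_le _ _)
  have h5 : ((E \ F).card : ℝ) ≤ G.card := by exact_mod_cast h1
  linarith

theorem coll (h : Par a N P A B L) {l : ℕ} (hl : l.Prime) (hlL : (l : ℝ) ≤ 2 * L ^ 2) :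
    (((Ico A B ×ˢ Ico A B).filter (fun x => (l : ℤ) ∣ Del a x.1 x.2)).card : ℝ) ≤
      8 * (5 + C2) * ((B - A : ℕ) : ℝ) ^ 2 * (l : ℝ) ^ (-(1 / 3) : ℝ) := by
  classical
  have hP := h.P1
  have hL := h.L1
  have hC := C2_pos
  set M := B - A with hM
  obtain ⟨J, hJ1, hJ2, hJ3⟩ : ∃ J : ℕ, 1 ≤ J ∧ J ^ 3 ≤ l ∧ l < (J + 1) ^ 3 :=
    ⟨Nat.nthRoot 3 l, (Nat.le_nthRoot_iff (by norm_num)).2 (by simpa using hl.one_le),
      Nat.pow_nthRoot_le_iff.2 (Or.inl (by norm_num)), Nat.lt_pow_nthRoot_add_one (by norm_num) l⟩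
  have hJl : J ≤ l := (Nat.le_self_pow (by norm_num) J).trans hJ2
  have hJ0 : (1 : ℝ) ≤ J := by exact_mod_cast hJ1
  have hl0 : (0 : ℝ) < l := by exact_mod_cast hl.pos
  have hlM : (l : ℝ) ≤ M := by
    have h1 : L ^ 2 ≤ L ^ 13 := pow_le_pow_right₀ hL (by norm_num)
    have h3 : 0 ≤ L ^ 13 := by positivity
    linarith [h.ML]
  have hlP : l ≤ P := by
    have h1 : L ^ 2 ≤ L ^ 14 := pow_le_pow_right₀ hL (by norm_num)
    have h3 : 0 ≤ L ^ 14 := by positivity
    have : (l : ℝ) ≤ P := by linarith [h.LP]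
    exact_mod_cast this
  have hPL : P / L ≤ M := by rw [div_le_iff₀ (by linarith)]; exact h.many
  have e : (Ico A B ×ˢ Ico A B).filter (fun x => (l : ℤ) ∣ Del a x.1 x.2) =
      (Ico A B ×ˢ Ico A B).filter (fun x => cls a l x.1 = cls a l x.2) := by
    refine filter_congr fun x hx => (cls_eq_iff a hl ?_ ?_).symm
    · exact hlP.trans_lt (h.mem _ (mem_product.1 hx).1).1
    · exact hlP.trans_lt (h.mem _ (mem_product.1 hx).2).1
  have h1 := (blocks (Ico A B) (cls a l) (fun i => (i - A) / J) (M / J + 1) (fun i hi =>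
    Nat.lt_succ_of_le (Nat.div_le_div_right (by have := (mem_Ico.1 hi).2; omega)))).trans
    (Nat.mul_le_mul_left _ (same_block A B J hJ1 (cls a l)))
  set H := J ^ 2 * ⌈L⌉₊ with hH
  have hc1 : L ≤ ⌈L⌉₊ := Nat.le_ceil L
  have hc2 : (⌈L⌉₊ : ℝ) ≤ 2 * L := by linarith [Nat.ceil_lt_add_one (by linarith : 0 ≤ L)]
  have hH0 : 0 < H := Nat.mul_pos (by positivity) (Nat.ceil_pos.2 (by linarith))
  have h2 : ∀ j ∈ range J,
      (((Ico A B).filter (fun i => i + j < B ∧ cls a l i = cls a l (i + j))).card : ℝ) ≤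
        (if j = 0 then (M : ℝ) else 0) + (4 + C2) * M / J := by
    intro j hj
    rw [mem_range] at hj
    split_ifs with h0
    · have : (((Ico A B).filter (fun i => i + j < B ∧ cls a l i = cls a l (i + j))).card : ℝ) ≤
          M := by exact_mod_cast (card_filter_le _ _).trans (Nat.card_Ico A B).le
      have : 0 ≤ (4 + C2) * M / J := by positivity
      linarith
    · refine (shift_le h hl hlL (by omega) (by omega) hH0).trans ?_
      have h3 : (j : ℝ) * (4 * P) / H ≤ 4 * M / J := by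
        have : (j : ℝ) ≤ J := by exact_mod_cast hj.le
        calc _ ≤ (J : ℝ) * (4 * P) / (J ^ 2 * L) := by rw [hH]; push_cast; gcongr
          _ = 4 * (P / L) / J := by field_simp
          _ ≤ _ := by gcongr
      have h4 : C2 / 10 * (H * P / (l * L ^ 2)) ≤ C2 * M / J := by
        have : (J : ℝ) ^ 3 ≤ l := by exact_mod_cast hJ2
        calc _ ≤ C2 / 2 * (J ^ 2 * (2 * L) * P / (J ^ 3 * L ^ 2)) := by
              rw [hH]; push_cast; gcongr; norm_num
          _ = C2 * (P / L) / J := by field_simp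
          _ ≤ _ := by gcongr
      have : (4 + C2) * M / J = 4 * M / J + C2 * M / J := by ring
      linarith
  have h3 := sum_le_sum h2
  rw [sum_add_distrib, sum_ite_eq', if_pos (mem_range.2 hJ1), sum_const, card_range,
    nsmul_eq_mul, mul_div_cancel₀ _ (by linarith)] at h3
  have h4 : ((M / J + 1 : ℕ) : ℝ) ≤ 2 * M / J := by
    have h5 : ((M / J : ℕ) : ℝ) ≤ M / J := Nat.cast_div_le
    have h6 : (1 : ℝ) ≤ M / J := by
      rw [le_div_iff₀ (by linarith)]
      have : (J : ℝ) ≤ l := by exact_mod_cast hJl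
      linarith
    have : (2 * M / J : ℝ) = M / J + M / J := by ring
    push_cast; linarith
  have h5 : 1 / (J : ℝ) ≤ 2 * (l : ℝ) ^ (-(1 / 3) : ℝ) := by
    have h6 : (l : ℝ) ≤ (2 * J) ^ 3 := by
      have : l ≤ (2 * J) ^ 3 := hJ3.le.trans (Nat.pow_le_pow_left (by omega) _)
      exact_mod_cast this
    have h7 := rpow_le_rpow_of_nonpos hl0 h6 (by norm_num : (-(1 / 3) : ℝ) ≤ 0)
    rw [← rpow_natCast, ← rpow_mul (by linarith),
      show ((3 : ℕ) : ℝ) * (-(1 / 3)) = -1 by norm_num, rpow_neg_one] at h7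
    have : 1 / (J : ℝ) = 2 * (2 * (J : ℝ))⁻¹ := by field_simp
    linarith
  rw [e]
  calc _ ≤ ((M / J + 1 : ℕ) : ℝ) * (2 * ∑ j ∈ range J,
        (((Ico A B).filter (fun i => i + j < B ∧ cls a l i = cls a l (i + j))).card : ℝ)) := by
        exact_mod_cast h1
    _ ≤ (2 * M / J) * (2 * (M + (4 + C2) * M)) :=
        mul_le_mul h4 (mul_le_mul_of_nonneg_left h3 (by norm_num))
          (mul_nonneg (by norm_num) (sum_nonneg fun _ _ => Nat.cast_nonneg _)) (by positivity)
    _ = 4 * (5 + C2) * M ^ 2 * (1 / J) := by ring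
    _ ≤ 4 * (5 + C2) * M ^ 2 * (2 * (l : ℝ) ^ (-(1 / 3) : ℝ)) := by gcongr
    _ = _ := by ring

theorem Del_ne (h : Par a N P A B L) {i i' : ℕ} (hi : i ∈ Ico A B) (hi' : i' ∈ Ico A B)
    (hne : i ≠ i') : (Del a i i').natAbs ≠ 0 ∧ log (Del a i i').natAbs ≤ L := by
  have key : ∀ i ∈ Ico A B, ∀ i' ∈ Ico A B, i < i' → 0 < Del a i i' ∧ Del a i i' ≤ N * P := by
    intro i hi i' hi' hlt
    obtain ⟨h1, h2⟩ := h.mem i hi
    obtain ⟨h3, h4⟩ := h.mem i' hi'
    have h5 : pr i < pr i' := pr_mono hlt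
    have h6 : i' ≤ pr i' := pr_mono.le_apply
    have h7 := h.aP
    have h8 : (P : ℤ) ^ 6 ≤ N := by exact_mod_cast h.PN
    have h9 : (1000 : ℤ) ≤ P := by exact_mod_cast h.P1
    unfold Del
    generalize pr i = p at *
    generalize pr i' = q at *
    have e1 : -(P : ℤ) * (q - p) ≤ a * (q - p) := mul_le_mul_of_nonneg_right (by omega) (by omega)
    have e2 : a * ((q : ℤ) - p) ≤ P * (4 * P) := by
      have : a * ((q : ℤ) - p) ≤ P * (q - p) := mul_le_mul_of_nonneg_right (by omega) (by omega)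
      have : (P : ℤ) * (q - p) ≤ P * (4 * P) := mul_le_mul_of_nonneg_left (by omega) (by omega)
      omega
    have e3 : (p : ℤ) * q * 1 ≤ p * q * (i' - i) :=
      mul_le_mul_of_nonneg_left (by omega) (by positivity)
    have e4 : (P : ℤ) * q ≤ p * q := mul_le_mul_of_nonneg_right (by omega) (by positivity)
    have e5 : (p : ℤ) * q * (i' - i) ≤ (4 * P) * (4 * P) * (4 * P) := by
      gcongr <;> omega
    have e6 : (0 : ℤ) < P * p := mul_pos (by omega) (by omega)
    have e7 : (P : ℤ) ^ 6 * P ≤ N * P := by gcongr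
    have e8 : (1000 : ℤ) * (P : ℤ) ^ 3 ≤ (P : ℤ) ^ 6 * P := by
      calc (1000 : ℤ) * (P : ℤ) ^ 3 ≤ (P : ℤ) * (P : ℤ) ^ 3 := by gcongr
        _ = (P : ℤ) ^ 4 := by ring
        _ ≤ (P : ℤ) ^ 7 := pow_le_pow_right₀ (by omega) (by norm_num)
        _ = _ := by ring
    have e9 : (P : ℤ) ^ 2 ≤ P ^ 3 := pow_le_pow_right₀ (by omega) (by norm_num)
    have e10 : (0 : ℤ) ≤ P ^ 2 := by positivity
    constructor <;> nlinarith
  have h2 : 0 < (Del a i i').natAbs ∧ (Del a i i').natAbs ≤ N * P := by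
    have e : Del a i i' = -Del a i' i := by unfold Del; ring
    rcases lt_or_gt_of_ne hne with h1 | h1
    · have := key i hi i' hi' h1; zify; rw [abs_of_pos this.1]; exact this
    · have := key i' hi' i hi h1; zify; rw [e, abs_neg, abs_of_pos this.1]; exact this
  refine ⟨h2.1.ne', ?_⟩
  have : log (Del a i i').natAbs ≤ log ((N : ℝ) * P) :=
    log_le_log (by exact_mod_cast h2.1) (by exact_mod_cast h2.2)
  linarith [h.Llo]

/-- The constant in the mean value of the singular factors. -/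
noncomputable def C3 : ℝ := 100 * exp 16 * (4 + 104 * (5 + C2))

theorem C3_pos : 0 < C3 := by have := C2_pos; unfold C3; positivity

theorem sum_ew_Del (h : Par a N P A B L) :
    ∑ x ∈ (Ico A B ×ˢ Ico A B).filter (fun x => x.1 ≠ x.2), ew (Del a x.1 x.2).natAbs ^ 2 ≤
      C3 * ((B - A : ℕ) : ℝ) ^ 2 := by
  classical
  have hL := h.L1
  have hC := C2_pos
  set Y := ⌈L ^ 2⌉₊ with hY
  have hL2 : 1 ≤ L ^ 2 := one_le_pow₀ hL
  have hY1 : L ^ 2 ≤ Y := Nat.le_ceil _
  have hY2 : (Y : ℝ) ≤ 2 * L ^ 2 := by linarith [Nat.ceil_lt_add_one (by linarith : 0 ≤ L ^ 2)]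
  set M : ℝ := ((B - A : ℕ) : ℝ) with hM
  have h1 : ∑ l ∈ Nat.primesLE Y, ∑ x ∈ Ico A B ×ˢ Ico A B,
      (if l ∣ (Del a x.1 x.2).natAbs then (l : ℝ) ^ (-(3 / 4) : ℝ) else 0) ≤
      8 * (5 + C2) * M ^ 2 * 13 := by
    calc _ ≤ ∑ l ∈ Nat.primesLE Y, 8 * (5 + C2) * M ^ 2 * (l : ℝ) ^ (-(1 + 1 / 12) : ℝ) := by
          refine sum_le_sum fun l hl => ?_
          rw [Nat.mem_primesLE] at hl
          have hl0 : (0 : ℝ) < l := by exact_mod_cast hl.2.pos
          simp only [← Int.natCast_dvd]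
          rw [← sum_filter, sum_const, nsmul_eq_mul]
          refine (mul_le_mul_of_nonneg_right (coll h hl.2
            (le_trans (by exact_mod_cast hl.1) hY2)) (by positivity)).trans (le_of_eq ?_)
          rw [mul_assoc, ← rpow_add hl0]; norm_num [hM]
      _ ≤ _ := by
          rw [← mul_sum]
          refine mul_le_mul_of_nonneg_left ?_ (by positivity)
          refine le_trans (sum_le_sum_of_subset_of_nonneg (fun l hl => ?_)
            fun _ _ _ => by positivity) ((sum_rpow_le (by norm_num) Y).trans (by norm_num))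
          rw [Nat.mem_primesLE] at hl
          exact mem_Ioc.2 ⟨hl.2.pos, hl.1⟩
  calc _ ≤ ∑ x ∈ (Ico A B ×ˢ Ico A B).filter (fun x => x.1 ≠ x.2), 100 * exp 16 *
        (4 + ∑ l ∈ Nat.primesLE Y,
          if l ∣ (Del a x.1 x.2).natAbs then (l : ℝ) ^ (-(3 / 4) : ℝ) else 0) := by
        refine sum_le_sum fun x hx => (ew_sq_le _).trans ?_
        simp only [mem_filter, mem_product] at hx
        obtain ⟨h2, h3⟩ := Del_ne h hx.1.1 hx.1.2 hx.2
        have := sigma_le h2 hL h3 hY1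
        gcongr 100 * exp 16 * ?_
        linarith
    _ ≤ ∑ x ∈ Ico A B ×ˢ Ico A B, 100 * exp 16 * (4 + ∑ l ∈ Nat.primesLE Y,
          if l ∣ (Del a x.1 x.2).natAbs then (l : ℝ) ^ (-(3 / 4) : ℝ) else 0) :=
        sum_le_sum_of_subset_of_nonneg (filter_subset _ _) fun _ _ _ => by positivity
    _ ≤ 100 * exp 16 * (M * M * 4 + 8 * (5 + C2) * M ^ 2 * 13) := by
        rw [← mul_sum, sum_add_distrib, sum_comm, sum_const, card_product, Nat.card_Ico,
          nsmul_eq_mul, Nat.cast_mul]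
        gcongr
    _ = _ := by unfold C3; ring

end Pool.Agent.P.MP_0993da_nt
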