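import Pool.Agent.P.MP_0993da_nt.Disp

/-!
Vaughan decomposition and equidistribution of primes in one class for many prime moduli.
-/

namespace Pool.Agent.P.MP_0993da_nt

open Finset Real Pool.Agent.Lib.Sieve
open ArithmeticFunction hiding log
open scoped ArithmeticFunction.zeta ArithmeticFunction.Moebius

theorem af_sub (f g : ArithmeticFunction ℝ) (n : ℕ) : (f - g) n = f n - g n := by
  rw [eq_sub_iff_add_eq, ← ArithmeticFunction.add_apply, sub_add_cancel]

theorem conv_sum (f g : ArithmeticFunction ℝ) (h : ℕ → ℝ) (N : ℕ) :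
    ∑ n ∈ Ioc 0 N, (f * g) n * h n =
      ∑ d ∈ Ioc 0 N, f d * ∑ m ∈ Ioc 0 (N / d), g m * h (d * m) := by
  simp only [ArithmeticFunction.mul_apply, sum_mul, mul_sum]
  rw [sum_sigma', sum_sigma']
  refine sum_nbij' (fun x => ⟨x.2.1, x.2.2⟩) (fun y => ⟨y.1 * y.2, (y.1, y.2)⟩) ?_ ?_ ?_ ?_ ?_
  · rintro ⟨n, d, m⟩ hx
    simp only [mem_sigma, mem_Ioc, Nat.mem_divisorsAntidiagonal] at hx ⊢
    obtain ⟨⟨h1, h2⟩, rfl, h3⟩ := hx
    have hd : 0 < d := Nat.pos_of_mul_pos_right h1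
    have hm : 0 < m := Nat.pos_of_mul_pos_left h1
    exact ⟨⟨hd, by nlinarith⟩, hm, (Nat.le_div_iff_mul_le hd).2 (by rwa [mul_comm])⟩
  · rintro ⟨d, m⟩ hy
    simp only [mem_sigma, mem_Ioc, Nat.mem_divisorsAntidiagonal] at hy ⊢
    obtain ⟨⟨h1, h2⟩, h3, h4⟩ := hy
    have := (Nat.le_div_iff_mul_le h1).1 h4
    exact ⟨⟨by positivity, by rwa [mul_comm]⟩, trivial, by positivity⟩
  · rintro ⟨n, d, m⟩ hx
    simp only [mem_sigma, mem_Ioc, Nat.mem_divisorsAntidiagonal] at hx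
    obtain ⟨-, rfl, -⟩ := hx
    rfl
  · rintro ⟨d, m⟩ _; rfl
  · rintro ⟨n, d, m⟩ hx
    simp only [mem_sigma, mem_Ioc, Nat.mem_divisorsAntidiagonal] at hx
    obtain ⟨-, rfl, -⟩ := hx
    simp only [mul_assoc]

/-- Truncation of an arithmetic function. -/
def trunc (f : ArithmeticFunction ℝ) (U : ℕ) : ArithmeticFunction ℝ :=
  ⟨fun n => if n ≤ U then f n else 0, by simp⟩

theorem trunc_apply (f : ArithmeticFunction ℝ) (U n : ℕ) :
    trunc f U n = if n ≤ U then f n else 0 := rfl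

theorem sum_trunc_le (f : ArithmeticFunction ℝ) (U N : ℕ) (F : ℕ → ℝ) {A B : ℝ} (hA : 0 ≤ A)
    (hB : 0 ≤ B) (hf : ∀ d ∈ Ioc 0 N, |f d| ≤ A) (hF : ∀ d ∈ Ioc 0 N, |F d| ≤ B) :
    |∑ d ∈ Ioc 0 N, trunc f U d * F d| ≤ U * (A * B) := by
  classical
  refine (abs_sum_le_sum_abs _ _).trans ?_
  calc _ ≤ ∑ d ∈ Ioc 0 N, if d ≤ U then A * B else 0 := by
        refine sum_le_sum fun d hd => ?_
        rw [trunc_apply]
        split_ifs
        · rw [abs_mul]; exact mul_le_mul (hf d hd) (hF d hd) (abs_nonneg _) hA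
        · simp
    _ ≤ ∑ d ∈ Ioc 0 U, A * B := by
        rw [← sum_filter]
        refine sum_le_sum_of_subset_of_nonneg (fun d hd => ?_) fun _ _ _ => by positivity
        simp only [mem_filter, mem_Ioc] at hd ⊢
        exact ⟨hd.1.1, hd.2⟩
    _ = _ := by simp

theorem sum_tau_div (x : ℕ) :
    ∑ m ∈ Ioc 0 x, (m.divisors.card : ℝ) / m ≤ (1 + log x) ^ 2 := by
  have h1 := conv_sum (ζ : ArithmeticFunction ℝ) ζ (fun n => 1 / (n : ℝ)) x
  have h2 : ∀ m ∈ Ioc 0 x, (m.divisors.card : ℝ) / m =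
      ((ζ : ArithmeticFunction ℝ) * ζ) m * (1 / (m : ℝ)) := by
    intro m _
    rw [coe_mul_zeta_apply, mul_one_div]
    congr 1
    rw [card_eq_sum_ones]
    push_cast
    refine sum_congr rfl fun d hd => ?_
    simp [natCoe_apply, zeta_apply, (Nat.pos_of_mem_divisors hd).ne']
  rw [sum_congr rfl h2, h1]
  have hl : 0 ≤ log x := log_natCast_nonneg x
  calc _ ≤ ∑ d ∈ Ioc 0 x, 1 / (d : ℝ) * (1 + log x) := by
        refine sum_le_sum fun d hd => ?_
        have hd0 := (mem_Ioc.1 hd).1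
        have h3 : ∑ m ∈ Ioc 0 (x / d), (ζ : ArithmeticFunction ℝ) m * (1 / ((d * m : ℕ) : ℝ)) =
            1 / (d : ℝ) * ∑ m ∈ Ioc 0 (x / d), 1 / (m : ℝ) := by
          rw [mul_sum]
          refine sum_congr rfl fun m hm => ?_
          simp [natCoe_apply, zeta_apply, (mem_Ioc.1 hm).1.ne', mul_comm]
        rw [h3]
        have h4 : ∑ m ∈ Ioc 0 (x / d), 1 / (m : ℝ) ≤ 1 + log x :=
          (sum_le_sum_of_subset_of_nonneg (Ioc_subset_Ioc_right (Nat.div_le_self _ _))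
            fun _ _ _ => by positivity).trans (sum_inv_Ioc_le x)
        simp only [natCoe_apply, zeta_apply, hd0.ne', if_false, Nat.cast_one, one_mul]
        gcongr
    _ ≤ _ := by
        rw [← sum_mul, sq]
        exact mul_le_mul_of_nonneg_right (sum_inv_Ioc_le x) (by positivity)

theorem tau_le {P m : ℕ} (hP : 0 < P) (hm : P ^ 2 < m) :
    (m.divisors.card : ℝ) / m ≤ 2 / P := by
  have hm0 : 0 < m := by omega
  have h1 : m.divisors ⊆ Ioc 0 P ∪ (Ioc 0 (m / P)).image (fun e => m / e) := by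
    intro d hd
    have hd0 := Nat.pos_of_mem_divisors hd
    obtain ⟨e, rfl⟩ := Nat.dvd_of_mem_divisors hd
    have he : 0 < e := Nat.pos_of_mul_pos_left hm0
    by_cases h : d ≤ P
    · exact mem_union_left _ (mem_Ioc.2 ⟨hd0, h⟩)
    · refine mem_union_right _ (mem_image.2 ⟨e, mem_Ioc.2 ⟨he, ?_⟩, Nat.mul_div_cancel _ he⟩)
      exact (Nat.le_div_iff_mul_le hP).2 (by nlinarith)
  have h2 := (card_le_card h1).trans ((card_union_le _ _).trans
    (Nat.add_le_add_left card_image_le _))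
  simp only [Nat.card_Ioc, Nat.sub_zero] at h2
  have h3 : (m.divisors.card : ℝ) ≤ P + m / P :=
    le_trans (by exact_mod_cast h2) (add_le_add le_rfl Nat.cast_div_le)
  have hP' : (0 : ℝ) < P := by exact_mod_cast hP
  have hm' : (P : ℝ) ^ 2 ≤ m := by exact_mod_cast hm.le
  have h4 : (P : ℝ) ≤ m / P := by rw [le_div_iff₀ hP']; nlinarith
  rw [div_le_iff₀ (by exact_mod_cast hm0)]
  have : 2 / (P : ℝ) * m = m / P + m / P := by ring
  linarith

/-- The coefficient of the bilinear term. -/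
noncomputable def bet (U : ℕ) : ArithmeticFunction ℝ := trunc (μ : ArithmeticFunction ℝ) U * ζ - 1

theorem abs_mu_le (d : ℕ) : |(μ : ArithmeticFunction ℝ) d| ≤ 1 := by
  rw [intCoe_apply]; exact_mod_cast abs_moebius_le_one

theorem bet_small {U m : ℕ} (hm : m ≤ U) : bet U m = 0 := by
  have h1 : (trunc (μ : ArithmeticFunction ℝ) U * ζ) m = ((μ : ArithmeticFunction ℝ) * ζ) m := by
    rw [coe_mul_zeta_apply, coe_mul_zeta_apply]
    refine sum_congr rfl fun d hd => ?_
    rw [trunc_apply, if_pos ((Nat.divisor_le hd).trans hm)]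
  rw [coe_moebius_mul_coe_zeta] at h1
  unfold bet
  rw [af_sub, h1, sub_self]

theorem abs_bet_le {U : ℕ} (hU : 1 ≤ U) (m : ℕ) : |bet U m| ≤ m.divisors.card := by
  by_cases hm : m ≤ U
  · rw [bet_small hm]; simp
  unfold bet
  rw [af_sub, one_apply_ne (by omega), sub_zero, coe_mul_zeta_apply]
  refine (abs_sum_le_sum_abs _ _).trans ?_
  rw [card_eq_sum_ones]
  push_cast
  refine sum_le_sum fun d _ => ?_
  rw [trunc_apply]
  split_ifs
  · exact abs_mu_le d
  · simp

theorem vaughan (U V : ℕ) :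
    (Λ : ArithmeticFunction ℝ) = trunc Λ V + trunc (μ : ArithmeticFunction ℝ) U * ArithmeticFunction.log -
      trunc (μ : ArithmeticFunction ℝ) U * (trunc Λ V * ζ) - (Λ - trunc Λ V) * bet U := by
  rw [← vonMangoldt_mul_zeta, bet]; ring

theorem abs_vm_le {d x : ℕ} (hd : d ∈ Ioc 0 x) : |Λ d| ≤ 1 + log x := by
  rw [mem_Ioc] at hd
  rw [abs_of_nonneg vonMangoldt_nonneg]
  have : log d ≤ log x := log_le_log (by exact_mod_cast hd.1) (by exact_mod_cast hd.2)
  linarith [vonMangoldt_le_log (n := d)]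

variable {a : ℤ} {P : ℕ} {S : Finset ℕ}

theorem W_Ioc (hS : Good a P S) (m s t : ℕ) : |∑ d ∈ Ioc s t, W a S (m * d)| ≤ 3 * S.card := by
  have e : Ioc s t = Ico (s + 1) (t + 1) := by ext n; simp only [mem_Ioc, mem_Ico]; omega
  rw [e]
  simpa only [mul_comm m] using W_interval hS m _ _

/-- Equidistribution of primes in the class `a` on average over prime moduli. -/
theorem disp (hS : Good a P S) (hP : 2 ≤ P) (hM : S.card ≤ 4 * P) {x : ℕ} (hx : 1 ≤ x) :
    ∃ E : ℝ, E ^ 2 ≤ 400 * (1 + log x) ^ 8 * x ^ 2 / P ∧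
      |∑ n ∈ Ioc 0 x, Λ n * W a S n - E| ≤ 36 * P ^ 6 * (1 + log x) := by
  have hl : 0 ≤ log x := log_natCast_nonneg x
  set L : ℝ := 1 + log x with hL
  have hL1 : 1 ≤ L := by linarith
  have hP0 : (2 : ℝ) ≤ P := by exact_mod_cast hP
  have hM' : (S.card : ℝ) ≤ 4 * P := by exact_mod_cast hM
  have hM3 : 3 * (S.card : ℝ) ≤ 12 * P := by linarith
  refine ⟨-∑ n ∈ Ioc 0 x, ((Λ - trunc Λ (P ^ 3)) * bet (P ^ 2)) n * W a S n, ?_, ?_⟩
  · rw [neg_sq, conv_sum]
    have h1 : ∑ d ∈ Ioc 0 x, (Λ - trunc Λ (P ^ 3)) d *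
        ∑ m ∈ Ioc 0 (x / d), bet (P ^ 2) m * W a S (d * m) =
        ∑ d ∈ Ioc (P ^ 3) x, Λ d * ∑ m ∈ Ioc 0 (x / d), bet (P ^ 2) m * W a S (d * m) := by
      symm
      refine sum_subset_zero_on_sdiff (Ioc_subset_Ioc_left (Nat.zero_le _)) ?_ ?_
      · intro d hd
        simp only [mem_sdiff, mem_Ioc] at hd
        rw [af_sub, trunc_apply, if_pos (by omega), sub_self, zero_mul]
      · intro d hd
        rw [af_sub, trunc_apply, if_neg (not_le.2 (mem_Ioc.1 hd).1), sub_zero]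
    have hU : 1 ≤ P ^ 2 := Nat.one_le_pow _ _ (by omega)
    have h2 : ∑ m ∈ Ioc 0 x, |bet (P ^ 2) m| / m ≤ L ^ 2 :=
      (sum_le_sum fun m _ => div_le_div_of_nonneg_right (abs_bet_le hU m) (by positivity)).trans
        (sum_tau_div x)
    have h3 : ∑ m ∈ Ioc 0 x, (|bet (P ^ 2) m| / m) ^ 2 ≤ 2 / P * L ^ 2 := by
      refine le_trans (sum_le_sum fun m _ => ?_)
        ((mul_sum _ _ _).ge.trans (mul_le_mul_of_nonneg_left h2 (by positivity)))
      rw [sq]
      refine mul_le_mul_of_nonneg_right ?_ (by positivity)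
      by_cases hm : m ≤ P ^ 2
      · rw [bet_small hm]; simp only [abs_zero, zero_div]; positivity
      · exact (div_le_div_of_nonneg_right (abs_bet_le hU m) (by positivity)).trans
          (tau_le (by omega) (not_le.1 hm))
    rw [h1]
    refine (type_two hS hP (Nat.le_self_pow (by norm_num) P) (fun d => Λ d)
      (fun m => bet (P ^ 2) m) (L := L)
      (fun d hd => abs_vm_le (Ioc_subset_Ioc_left (Nat.zero_le _) hd)) h2 h3).trans ?_
    have h4 : 18 * (S.card : ℝ) ^ 2 / ((P ^ 3 : ℕ) : ℝ) ≤ 288 / P := by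
      push_cast
      calc _ ≤ 18 * (4 * P : ℝ) ^ 2 / P ^ 3 := by gcongr
        _ = _ := by field_simp; norm_num
    have h5 : 4 * (S.card : ℝ) / P ≤ 16 := by rw [div_le_iff₀ (by linarith)]; linarith
    have h6 : 2 / (P : ℝ) * S.card ≤ 8 := by
      rw [div_mul_eq_mul_div, div_le_iff₀ (by linarith)]; linarith
    have h7 : L ^ 2 ≤ L ^ 5 := pow_le_pow_right₀ hL1 (by norm_num)
    have h8 : L ^ 4 ≤ L ^ 5 := pow_le_pow_right₀ hL1 (by norm_num)
    calc _ ≤ (L ^ 2 * L) * (x ^ 2 * ((288 / P + 2 / P * (L + 16)) * (L ^ 2) ^ 2 +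
          8 * (2 / P * L ^ 2))) := by
          rw [← hL]
          gcongr
          linarith
      _ = L ^ 3 * x ^ 2 / P * (320 * L ^ 4 + 2 * L ^ 5 + 16 * L ^ 2) := by ring
      _ ≤ L ^ 3 * x ^ 2 / P * (400 * L ^ 5) := by
          refine mul_le_mul_of_nonneg_left ?_ (by positivity)
          have : 0 ≤ L ^ 5 := by positivity
          linarith
      _ = _ := by ring
  · have h1 : ∑ n ∈ Ioc 0 x, Λ n * W a S n -
        -∑ n ∈ Ioc 0 x, ((Λ - trunc Λ (P ^ 3)) * bet (P ^ 2)) n * W a S n =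
        ∑ n ∈ Ioc 0 x, trunc Λ (P ^ 3) n * W a S n +
        ∑ n ∈ Ioc 0 x, (trunc (μ : ArithmeticFunction ℝ) (P ^ 2) * ArithmeticFunction.log) n *
          W a S n -
        ∑ n ∈ Ioc 0 x, (trunc (μ : ArithmeticFunction ℝ) (P ^ 2) * (trunc Λ (P ^ 3) * ζ)) n *
          W a S n := by
      rw [sub_neg_eq_add, ← sum_add_distrib, ← sum_add_distrib, ← sum_sub_distrib]
      refine sum_congr rfl fun n _ => ?_
      have := congrArg (fun f : ArithmeticFunction ℝ => f n) (vaughan (P ^ 2) (P ^ 3))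
      simp only [af_sub, ArithmeticFunction.add_apply] at this
      rw [← add_mul, ← add_mul, ← sub_mul]
      congr 1
      linarith
    have h2 : |∑ n ∈ Ioc 0 x, trunc Λ (P ^ 3) n * W a S n| ≤ (P ^ 3 : ℕ) * (L * (12 * P)) := by
      refine sum_trunc_le _ _ _ _ (by linarith) (by positivity) (fun d hd => abs_vm_le hd)
        fun d _ => le_trans ?_ hM3
      simpa using W_Ioc hS d 0 1
    have h3 : |∑ n ∈ Ioc 0 x, (trunc (μ : ArithmeticFunction ℝ) (P ^ 2) *
        ArithmeticFunction.log) n * W a S n| ≤ (P ^ 2 : ℕ) * (1 * (12 * P * L)) := by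
      rw [conv_sum]
      refine sum_trunc_le _ _ _ _ (by linarith) (by positivity) (fun d _ => abs_mu_le d)
        fun d hd => ?_
      simp only [log_apply]
      refine (abel_Ioc (fun m => W a S (d * m))
        (fun s t => by simpa only [mul_comm d] using W_interval hS d s t) (fun m => log m)
        (fun n => log_natCast_nonneg n) (fun n hn => ?_) 0 _).trans ?_
      · exact log_le_log (by exact_mod_cast hn) (by push_cast; linarith)
      · refine mul_le_mul hM3 ?_ (log_natCast_nonneg _) (by positivity)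
        have h4 : ((x / d + 1 : ℕ) : ℝ) ≤ exp 1 * x := by
          have h5 : x / d + 1 ≤ 2 * x := by have := Nat.div_le_self x d; omega
          have h6 : ((x / d + 1 : ℕ) : ℝ) ≤ 2 * x := by exact_mod_cast h5
          have : (0 : ℝ) ≤ x := by positivity
          nlinarith [exp_one_gt_d9]
        have hx0 : (0 : ℝ) < x := by exact_mod_cast hx
        calc _ ≤ log (exp 1 * x) := log_le_log (by positivity) h4
          _ = L := by rw [log_mul (exp_pos 1).ne' hx0.ne', log_exp]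
    have h4 : |∑ n ∈ Ioc 0 x, (trunc (μ : ArithmeticFunction ℝ) (P ^ 2) *
        (trunc Λ (P ^ 3) * ζ)) n * W a S n| ≤
        (P ^ 2 : ℕ) * (1 * ((P ^ 3 : ℕ) * (L * (12 * P)))) := by
      rw [conv_sum]
      refine sum_trunc_le _ _ _ _ (by linarith) (by positivity) (fun d _ => abs_mu_le d)
        fun d hd => ?_
      rw [conv_sum]
      refine sum_trunc_le _ _ _ _ (by linarith) (by positivity)
        (fun e he => abs_vm_le (Ioc_subset_Ioc_right (Nat.div_le_self _ _) he)) fun e _ => ?_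
      refine le_trans (le_of_eq ?_) ((W_Ioc hS (d * e) 0 (x / d / e)).trans hM3)
      congr 1
      refine sum_congr rfl fun m hm => ?_
      simp [natCoe_apply, zeta_apply, (mem_Ioc.1 hm).1.ne', mul_assoc]
    rw [h1]
    push_cast at h2 h3 h4
    have h5 : (P : ℝ) ^ 3 * (L * (12 * P)) ≤ 12 * P ^ 6 * L := by
      have : (P : ℝ) ^ 4 ≤ P ^ 6 := pow_le_pow_right₀ (by linarith) (by norm_num)
      nlinarith
    have h6 : (P : ℝ) ^ 2 * (1 * (12 * P * L)) ≤ 12 * P ^ 6 * L := by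
      have : (P : ℝ) ^ 3 ≤ P ^ 6 := pow_le_pow_right₀ (by linarith) (by norm_num)
      nlinarith
    have h7 : (P : ℝ) ^ 2 * (1 * (P ^ 3 * (L * (12 * P)))) = 12 * P ^ 6 * L := by ring
    rw [abs_le] at h2 h3 h4 ⊢
    constructor <;> linarith [h2.1, h2.2, h3.1, h3.2, h4.1, h4.2]

end Pool.Agent.P.MP_0993da_nt
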